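import Mathlib

/-!
# Andrews' determinant, the Mills-Robbins-Rumsey determinant: definitions
-/

namespace Pool.Agent.H13.Four

open Finset

/-- Andrews' matrix `binom (i+j+μ) i` -/
def PQ (μ M : ℕ) : Matrix (Fin M) (Fin M) ℚ :=
  Matrix.of fun i j => (((i : ℕ) + j + μ).choose i : ℚ)

/-- `binom (i+j+lam) (2j-i)` -/
def TT (lam i j : ℕ) : ℚ := if i ≤ 2 * j then ((i + j + lam).choose (2 * j - i) : ℚ) else 0

/-- `2 binom (i+j+lam+2) (2j+1-i) + binom (i+j+lam) (2j-i)` -/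
def RR (lam i j : ℕ) : ℚ :=
  2 * (if i ≤ 2 * j + 1 then ((i + j + lam + 2).choose (2 * j + 1 - i) : ℚ) else 0) + TT lam i j

/-- the Mills-Robbins-Rumsey matrix -/
def TQ (lam m : ℕ) : Matrix (Fin m) (Fin m) ℚ := Matrix.of fun i j => TT lam i j

/-- the odd part -/
def RQ (lam m : ℕ) : Matrix (Fin m) (Fin m) ℚ := Matrix.of fun i j => RR lam i j

/-- the row vectors of the LU decomposition of `TQ` -/
def ev (lam k i : ℕ) : ℚ :=
  if k < i then 0 else ∏ t ∈ Ico i k,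
    (-((t : ℚ) * (2 * k - t - 1) * (2 * k + 2 * lam + t + 2)) /
      (2 * (k - t) * (2 * k + 2 * t + 2 * lam + 1) * (t + 1 + lam)))

/-- the pivots of `TQ` -/
def tau (lam k : ℕ) : ℚ :=
  if k = 0 then 1 else
    (1 / 2) * (∏ t ∈ range k, (2 * (lam : ℚ) + 2 * k + 2 + t)) *
      (∏ t ∈ range (k - 1), ((lam : ℚ) + 2 * k + 3 / 2 + t)) /
      ((∏ t ∈ range k, ((k : ℚ) + t)) * ∏ t ∈ range (k - 1), ((lam : ℚ) + k + 3 / 2 + t))

end Pool.Agent.H13.Four
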