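import Mathlib
import Pool.Agent.H13.Four.Defs

/-!
# Parity factorization of Andrews' determinant (job F1)
-/

namespace Pool.Agent.H13.Four

open Finset Polynomial Matrix

/-- the polynomials `(2x+1)^ε (x(1+x))^m`, `n = 2m+ε` -/
noncomputable def PP (n : ℕ) : ℚ[X] := (2 * X + 1) ^ (n % 2) * (X * (1 + X)) ^ (n / 2)

/-- the reversed polynomials -/
noncomputable def RP (n : ℕ) : ℚ[X] := (X + 2) ^ (n % 2) * (1 + X) ^ (n / 2)

theorem natDegree_XX : (X * (1 + X) : ℚ[X]).natDegree ≤ 2 := by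
  compute_degree

theorem natDegree_tX : (2 * X + 1 : ℚ[X]).natDegree ≤ 1 := by
  compute_degree

theorem natDegree_XXpow (m : ℕ) : ((X * (1 + X) : ℚ[X]) ^ m).natDegree ≤ 2 * m := by
  refine (natDegree_pow_le).trans ?_
  have := natDegree_XX
  nlinarith

theorem reflect_XX : reflect 2 (X * (1 + X) : ℚ[X]) = 1 + X := by
  have e : (X * (1 + X) : ℚ[X]) = X ^ 1 + X ^ 2 := by ring
  rw [e, reflect_add]
  have h1 : reflect 2 (X ^ 1 : ℚ[X]) = X ^ (revAt 2 1) := by
    have := reflect_C_mul_X_pow (R := ℚ) 2 1 (c := 1)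
    simpa using this
  have h2 : reflect 2 (X ^ 2 : ℚ[X]) = X ^ (revAt 2 2) := by
    have := reflect_C_mul_X_pow (R := ℚ) 2 2 (c := 1)
    simpa using this
  rw [h1, h2, revAt_le (by norm_num), revAt_le (by norm_num)]
  norm_num
  ring

theorem reflect_tX : reflect 1 (2 * X + 1 : ℚ[X]) = X + 2 := by
  have c2 : (C 2 : ℚ[X]) = 2 := map_ofNat C 2
  have e : (2 * X + 1 : ℚ[X]) = C 2 * X ^ 1 + C 1 * X ^ 0 := by rw [c2]; simp
  rw [e, reflect_add, reflect_C_mul_X_pow, reflect_C_mul_X_pow, revAt_le (by norm_num),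
    revAt_le (by norm_num), c2]
  simp
  ring

theorem reflect_XXpow (m : ℕ) : reflect (2 * m) ((X * (1 + X) : ℚ[X]) ^ m) = (1 + X) ^ m := by
  induction m with
  | zero =>
    have := reflect_C_mul_X_pow (R := ℚ) 0 0 (c := 1)
    simpa using this
  | succ m ih =>
    rw [pow_succ, mul_add, mul_one, reflect_mul _ _ (natDegree_XXpow m) natDegree_XX, ih,
      reflect_XX, pow_succ]

theorem PP_even (m : ℕ) : PP (2 * m) = (X * (1 + X)) ^ m := by
  have h1 : 2 * m % 2 = 0 := by omega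
  have h2 : 2 * m / 2 = m := by omega
  simp [PP, h1, h2]

theorem PP_odd (m : ℕ) : PP (2 * m + 1) = (2 * X + 1) * (X * (1 + X)) ^ m := by
  have h1 : (2 * m + 1) % 2 = 1 := by omega
  have h2 : (2 * m + 1) / 2 = m := by omega
  simp [PP, h1, h2]

theorem RP_even (m : ℕ) : RP (2 * m) = (1 + X) ^ m := by
  have h1 : 2 * m % 2 = 0 := by omega
  have h2 : 2 * m / 2 = m := by omega
  simp [RP, h1, h2]

theorem RP_odd (m : ℕ) : RP (2 * m + 1) = (X + 2) * (1 + X) ^ m := by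
  have h1 : (2 * m + 1) % 2 = 1 := by omega
  have h2 : (2 * m + 1) / 2 = m := by omega
  simp [RP, h1, h2]

theorem reflect_PP (n : ℕ) : reflect n (PP n) = RP n := by
  rcases Nat.even_or_odd' n with ⟨m, rfl | rfl⟩
  · rw [PP_even, RP_even, reflect_XXpow]
  · rw [PP_odd, RP_odd, add_comm (2 * m) 1, reflect_mul _ _ natDegree_tX (natDegree_XXpow m),
      reflect_tX, reflect_XXpow]

theorem natDegree_PP (n : ℕ) : (PP n).natDegree ≤ n := by
  rcases Nat.even_or_odd' n with ⟨m, rfl | rfl⟩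
  · rw [PP_even]; exact natDegree_XXpow m
  · rw [PP_odd, add_comm (2 * m) 1]
    exact natDegree_mul_le_of_le natDegree_tX (natDegree_XXpow m)

theorem coeff_RP (n t : ℕ) (h : t ≤ n) : (RP n).coeff t = (PP n).coeff (n - t) := by
  rw [← reflect_PP, coeff_reflect, revAt_le h]

theorem coeff_PP_self (n : ℕ) : (PP n).coeff n = 2 ^ (n % 2) := by
  have := coeff_RP n 0 (Nat.zero_le n)
  rw [Nat.sub_zero] at this
  rw [← this, coeff_zero_eq_eval_zero]
  simp [RP]

theorem coeff_PP_zero (n k : ℕ) (h : n < k) : (PP n).coeff k = 0 :=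
  coeff_eq_zero_of_natDegree_lt ((natDegree_PP n).trans_lt h)

theorem comp_PP (n : ℕ) : (PP n).comp (-1 - X) = (-1) ^ n * PP n := by
  rcases Nat.even_or_odd' n with ⟨m, rfl | rfl⟩
  · rw [PP_even]
    simp only [pow_comp, mul_comp, X_comp, add_comp, one_comp]
    rw [pow_mul]
    norm_num
    congr 1
    ring
  · rw [PP_odd]
    simp only [pow_comp, mul_comp, X_comp, add_comp, one_comp, ofNat_comp]
    rw [pow_succ, pow_mul]
    have e1 : ((-1 - X) * (1 + (-1 - X)) : ℚ[X]) = X * (1 + X) := by ring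
    rw [e1]
    ring

theorem sum_PP (n N k : ℕ) (hN : n < N) :
    ∑ a ∈ range N, (PP n).coeff a * ((-1) ^ a * (a.choose k : ℚ)) = (-1) ^ n * (PP n).coeff k := by
  have h1 : ((PP n).comp (-1 - X)).coeff k = (-1) ^ n * (PP n).coeff k := by
    rw [comp_PP]
    have : ((-1 : ℚ[X]) ^ n) = C ((-1) ^ n) := by simp
    rw [this, coeff_C_mul]
  rw [← h1, Polynomial.comp, eval₂_eq_sum_range' C ((natDegree_PP n).trans_lt hN), finset_sum_coeff]
  refine sum_congr rfl fun a _ => ?_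
  have e : ((-1 - X : ℚ[X])) ^ a = C ((-1) ^ a) * (1 + X) ^ a := by
    have : (-1 - X : ℚ[X]) = C (-1) * (1 + X) := by simp; ring
    rw [this, mul_pow, ← C_pow]
  rw [e, coeff_C_mul, coeff_C_mul, coeff_one_add_X_pow]

/-- the pairing -/
theorem pairing (lam i j M : ℕ) (hj : j < M) :
    ∑ k ∈ range M, (PP i).coeff k * (PP (j + 2 * lam)).coeff (k + 2 * lam)
      = (PP i * RP (j + 2 * lam)).coeff j := by
  rw [coeff_mul, Finset.Nat.sum_antidiagonal_eq_sum_range_succ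
    (fun a b => (PP i).coeff a * (RP (j + 2 * lam)).coeff b) j]
  have hs : range (j + 1) ⊆ range M := by
    intro x hx; simp only [mem_range] at hx ⊢; omega
  rw [← sum_subset hs]
  · refine sum_congr rfl fun k hk => ?_
    have hk' : k ≤ j := by simp only [mem_range] at hk; omega
    rw [coeff_RP _ _ (by omega)]
    congr 2
    omega
  · intro k _ hk
    have hk' : j < k := by simp only [mem_range] at hk; omega
    rw [coeff_PP_zero (j + 2 * lam) _ (by omega), mul_zero]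

theorem pairing_even (lam i j : ℕ) : (PP (2 * i) * RP (2 * j + 2 * lam)).coeff (2 * j) = TT lam i j := by
  rw [← mul_add, PP_even, RP_even]
  have e : ((X * (1 + X)) ^ i * (1 + X) ^ (j + lam) : ℚ[X]) = X ^ i * (1 + X) ^ (i + j + lam) := by
    rw [mul_pow, mul_assoc, ← pow_add]; congr 2; ring
  rw [e, coeff_X_pow_mul', TT]
  simp only [coeff_one_add_X_pow]

theorem pairing_odd (lam i j : ℕ) :
    (PP (2 * i + 1) * RP (2 * j + 1 + 2 * lam)).coeff (2 * j + 1) = RR lam i j := by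
  have e0 : 2 * j + 1 + 2 * lam = 2 * (j + lam) + 1 := by ring
  rw [e0, PP_odd, RP_odd]
  have e : ((2 * X + 1) * (X * (1 + X)) ^ i * ((X + 2) * (1 + X) ^ (j + lam)) : ℚ[X])
      = C 2 * (X ^ i * (1 + X) ^ (i + j + lam + 2)) + X ^ (i + 1) * (1 + X) ^ (i + j + lam) := by
    have : (C 2 : ℚ[X]) = 2 := map_ofNat C 2
    rw [this, mul_pow, pow_add (1 + X : ℚ[X]) (i + j + lam) 2, pow_add (1 + X : ℚ[X]) j lam,
      pow_add (1 + X : ℚ[X]) (i + j) lam, pow_add (1 + X : ℚ[X]) i j]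
    ring
  rw [e, coeff_add, coeff_C_mul, coeff_X_pow_mul', coeff_X_pow_mul', RR, TT]
  simp only [coeff_one_add_X_pow]
  congr 1
  have h1 : (i + 1 ≤ 2 * j + 1) = (i ≤ 2 * j) := by simp
  have h2 : 2 * j + 1 - (i + 1) = 2 * j - i := by omega
  rw [h2]
  simp only [h1]

/-! ### the matrices -/

/-- the matrix of left eigenvectors -/
noncomputable def Lm (M : ℕ) : Matrix (Fin M) (Fin M) ℚ := Matrix.of fun i k => (PP i).coeff k

/-- the matrix of right eigenvectors -/
noncomputable def Vm (lam M : ℕ) : Matrix (Fin M) (Fin M) ℚ :=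
  Matrix.of fun k j => (PP ((j : ℕ) + 2 * lam)).coeff ((k : ℕ) + 2 * lam)

/-- signs -/
def Em (M : ℕ) : Matrix (Fin M) (Fin M) ℚ := Matrix.diagonal fun i => (-1) ^ (i : ℕ)

def Xm (M : ℕ) : Matrix (Fin M) (Fin M) ℚ :=
  Matrix.of fun a k => (-1) ^ (a : ℕ) * (((a : ℕ).choose k : ℕ) : ℚ)

def Wm (lam M : ℕ) : Matrix (Fin M) (Fin M) ℚ :=
  Matrix.of fun k b => (-1) ^ (b : ℕ) * ((((b : ℕ) + 2 * lam).choose (k + 2 * lam) : ℕ) : ℚ)

theorem prod_two_pow (M c : ℕ) : ∏ i : Fin M, (2 : ℚ) ^ (((i : ℕ) + 2 * c) % 2) = 2 ^ (M / 2) := by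
  rw [Fin.prod_univ_eq_prod_range (fun i => (2 : ℚ) ^ ((i + 2 * c) % 2)) M]
  induction M with
  | zero => simp
  | succ M ih =>
    rw [prod_range_succ, ih, ← pow_add]
    congr 1
    omega

theorem det_Lm (M : ℕ) : (Lm M).det = 2 ^ (M / 2) := by
  rw [det_of_isLowerTriangular]
  · rw [← prod_two_pow M 0]
    refine prod_congr rfl fun i _ => ?_
    simp [Lm, coeff_PP_self]
  · intro i j hij
    exact coeff_PP_zero _ _ (by simpa using hij)

theorem det_Vm (lam M : ℕ) : (Vm lam M).det = 2 ^ (M / 2) := by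
  rw [det_of_isUpperTriangular]
  · rw [← prod_two_pow M lam]
    refine prod_congr rfl fun i _ => ?_
    simp only [Vm, Matrix.of_apply]
    rw [coeff_PP_self]
  · intro i j hij
    have : (j : ℕ) < i := by simpa using hij
    exact coeff_PP_zero _ _ (by omega)

theorem Lm_mul_Xm (M : ℕ) : Lm M * Xm M = Em M * Lm M := by
  ext i k
  rw [Em, Matrix.diagonal_mul, Matrix.mul_apply]
  simp only [Lm, Xm, Matrix.of_apply]
  rw [← sum_PP i M k i.isLt]
  exact Fin.sum_univ_eq_sum_range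
    (fun a => (PP i).coeff a * ((-1) ^ a * ((a.choose k : ℕ) : ℚ))) M

theorem Wm_mul_Vm (lam M : ℕ) : Wm lam M * Vm lam M = Vm lam M * Em M := by
  ext k j
  rw [Em, Matrix.mul_diagonal, Matrix.mul_apply]
  simp only [Wm, Vm, Matrix.of_apply]
  have h := sum_PP ((j : ℕ) + 2 * lam) (2 * lam + M) ((k : ℕ) + 2 * lam) (by have := j.isLt; omega)
  rw [sum_range_add] at h
  have h0 : ∑ x ∈ range (2 * lam), (PP ((j : ℕ) + 2 * lam)).coeff x *
      ((-1) ^ x * ((x.choose ((k : ℕ) + 2 * lam) : ℕ) : ℚ)) = 0 := by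
    refine sum_eq_zero fun x hx => ?_
    have hx' := mem_range.1 hx
    rw [Nat.choose_eq_zero_of_lt (by omega)]
    simp
  rw [h0, zero_add] at h
  have e1 : ((-1 : ℚ)) ^ ((j : ℕ) + 2 * lam) = (-1) ^ (j : ℕ) := by
    rw [pow_add, pow_mul]; norm_num
  rw [e1] at h
  rw [mul_comm _ ((-1 : ℚ) ^ (j : ℕ)), ← h]
  rw [← Fin.sum_univ_eq_sum_range (fun x => (PP ((j : ℕ) + 2 * lam)).coeff (2 * lam + x) *
      ((-1) ^ (2 * lam + x) * (((2 * lam + x).choose ((k : ℕ) + 2 * lam) : ℕ) : ℚ))) M]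
  refine sum_congr rfl fun b _ => ?_
  have e2 : ((-1 : ℚ)) ^ (2 * lam + (b : ℕ)) = (-1) ^ (b : ℕ) := by
    rw [pow_add, pow_mul]; norm_num
  rw [e2, add_comm (2 * lam) (b : ℕ)]
  ring

theorem vander (lam M a b : ℕ) (hb : b < M) :
    (((a + b + 2 * lam).choose b : ℕ) : ℚ) =
      ∑ k ∈ range M, ((a.choose k : ℕ) : ℚ) * (((b + 2 * lam).choose (k + 2 * lam) : ℕ) : ℚ) := by
  rw [add_assoc, Nat.add_choose_eq, Finset.Nat.sum_antidiagonal_eq_sum_range_succ
    (fun x y => a.choose x * (b + 2 * lam).choose y) b]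
  have hs : range (b + 1) ⊆ range M := by
    intro x hx; simp only [mem_range] at hx ⊢; omega
  rw [← sum_subset hs]
  · push_cast
    refine sum_congr rfl fun k hk => ?_
    have hk' : k ≤ b := by simp only [mem_range] at hk; omega
    rw [← Nat.choose_symm_of_eq_add (show b + 2 * lam = (k + 2 * lam) + (b - k) by omega)]
  · intro k _ hk
    have hk' : b < k := by simp only [mem_range] at hk; omega
    rw [Nat.choose_eq_zero_of_lt (show b + 2 * lam < k + 2 * lam by omega)]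
    simp

theorem conj_PQ (lam M : ℕ) :
    Em M * (1 + (PQ (2 * lam) M)ᵀ) * Em M = 1 + Xm M * Wm lam M := by
  ext a b
  rw [Em, Matrix.mul_diagonal, Matrix.diagonal_mul]
  simp only [Matrix.add_apply, Matrix.transpose_apply, PQ, Matrix.of_apply]
  rw [Matrix.mul_apply]
  have h := vander lam M a b b.isLt
  have e : ((b : ℕ) + a + 2 * lam).choose b = ((a : ℕ) + b + 2 * lam).choose b := by
    rw [add_comm (b : ℕ) a]
  rw [e, h, ← Fin.sum_univ_eq_sum_range
    (fun k => (((a : ℕ).choose k : ℕ) : ℚ) * ((((b : ℕ) + 2 * lam).choose (k + 2 * lam) : ℕ) : ℚ)) M]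
  rw [mul_add, add_mul, mul_sum, sum_mul]
  congr 1
  · by_cases hab : a = b
    · subst hab
      rw [Matrix.one_apply_eq, mul_one, ← pow_add, ← two_mul, pow_mul]; norm_num
    · rw [Matrix.one_apply_ne hab]; ring
  · refine sum_congr rfl fun k _ => ?_
    simp only [Xm, Wm, Matrix.of_apply]
    ring

theorem det_Em (M : ℕ) : (Em M).det * (Em M).det = 1 := by
  rw [← Matrix.det_mul, Em, Matrix.diagonal_mul_diagonal]
  have : (fun i : Fin M => ((-1 : ℚ)) ^ (i : ℕ) * (-1) ^ (i : ℕ)) = fun _ => 1 := by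
    funext i
    rw [← pow_add, ← two_mul, pow_mul]; norm_num
  rw [this]
  simp

/-- reindexing by the parity -/
def parE (M : ℕ) : Fin ((M + 1) / 2) ⊕ Fin (M / 2) ≃ Fin M where
  toFun := Sum.elim (fun i => ⟨2 * (i : ℕ), by have := i.isLt; omega⟩)
    (fun i => ⟨2 * (i : ℕ) + 1, by have := i.isLt; omega⟩)
  invFun i := if h : (i : ℕ) % 2 = 0 then Sum.inl ⟨(i : ℕ) / 2, by have := i.isLt; omega⟩
    else Sum.inr ⟨(i : ℕ) / 2, by have := i.isLt; omega⟩
  left_inv := by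
    rintro (i | i)
    · simp
    · have h1 : ¬ (2 * (i : ℕ) + 1) % 2 = 0 := by omega
      have h2 : (2 * (i : ℕ) + 1) / 2 = i := by omega
      simp [h1, h2]
  right_inv := by
    intro i
    by_cases h : (i : ℕ) % 2 = 0
    · simp only [h, dif_pos, Sum.elim_inl]
      ext; simp only; omega
    · simp only [h, dif_neg, not_false_eq_true, Sum.elim_inr]
      ext; simp only; omega

theorem main_mul (lam M : ℕ) :
    (Lm M * (1 + Xm M * Wm lam M) * Vm lam M).submatrix (parE M) (parE M)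
      = Matrix.fromBlocks ((2 : ℚ) • TQ lam ((M + 1) / 2)) 0 0 ((2 : ℚ) • RQ lam (M / 2)) := by
  have h1 : Lm M * (1 + Xm M * Wm lam M) * Vm lam M
      = Lm M * Vm lam M + Em M * (Lm M * Vm lam M) * Em M := by
    rw [Matrix.mul_add, Matrix.add_mul, Matrix.mul_one, ← Matrix.mul_assoc, Lm_mul_Xm,
      Matrix.mul_assoc (Em M * Lm M), Wm_mul_Vm]
    simp only [Matrix.mul_assoc]
  have h2 : ∀ i j : Fin M, (Lm M * Vm lam M) i j
      = (PP i * RP ((j : ℕ) + 2 * lam)).coeff j := by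
    intro i j
    rw [Matrix.mul_apply]
    simp only [Lm, Vm, Matrix.of_apply]
    rw [← pairing lam i j M j.isLt]
    exact Fin.sum_univ_eq_sum_range
      (fun k => (PP i).coeff k * (PP ((j : ℕ) + 2 * lam)).coeff (k + 2 * lam)) M
  have h3 : ∀ i j : Fin M, (Lm M * (1 + Xm M * Wm lam M) * Vm lam M) i j
      = (1 + (-1) ^ ((i : ℕ) + j)) * (PP i * RP ((j : ℕ) + 2 * lam)).coeff j := by
    intro i j
    rw [h1, Matrix.add_apply, Em, Matrix.mul_diagonal, Matrix.diagonal_mul, h2, pow_add]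
    ring
  ext (i | i) (j | j)
  · rw [Matrix.submatrix_apply, h3]
    simp only [parE, Equiv.coe_fn_mk, Sum.elim_inl, Matrix.fromBlocks_apply₁₁, Matrix.smul_apply,
      TQ, Matrix.of_apply]
    rw [pairing_even, ← mul_add, pow_mul]
    norm_num
  · rw [Matrix.submatrix_apply, h3]
    simp only [parE, Equiv.coe_fn_mk, Sum.elim_inl, Sum.elim_inr, Matrix.fromBlocks_apply₁₂,
      Matrix.zero_apply]
    have e : 2 * (i : ℕ) + (2 * (j : ℕ) + 1) = 2 * (i + j) + 1 := by ring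
    rw [e, pow_succ, pow_mul]
    norm_num
  · rw [Matrix.submatrix_apply, h3]
    simp only [parE, Equiv.coe_fn_mk, Sum.elim_inl, Sum.elim_inr, Matrix.fromBlocks_apply₂₁,
      Matrix.zero_apply]
    have e : 2 * (i : ℕ) + 1 + 2 * (j : ℕ) = 2 * (i + j) + 1 := by ring
    rw [e, pow_succ, pow_mul]
    norm_num
  · rw [Matrix.submatrix_apply, h3]
    simp only [parE, Equiv.coe_fn_mk, Sum.elim_inr, Matrix.fromBlocks_apply₂₂, Matrix.smul_apply,
      RQ, Matrix.of_apply]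
    rw [pairing_odd]
    have e : 2 * (i : ℕ) + 1 + (2 * (j : ℕ) + 1) = 2 * (i + j + 1) := by ring
    rw [e, pow_mul]
    norm_num

theorem factor (lam M : ℕ) :
    (1 + PQ (2 * lam) M).det =
      2 ^ (M % 2) * (TQ lam ((M + 1) / 2)).det * (RQ lam (M / 2)).det := by
  have h1 := congrArg Matrix.det (main_mul lam M)
  rw [Matrix.det_submatrix_equiv_self, Matrix.det_fromBlocks_zero₂₁, Matrix.det_smul,
    Matrix.det_smul, Matrix.det_mul, Matrix.det_mul, ← conj_PQ, Matrix.det_mul, Matrix.det_mul,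
    det_Lm, det_Vm, Fintype.card_fin, Fintype.card_fin] at h1
  have h2 : (1 + (PQ (2 * lam) M)ᵀ).det = (1 + PQ (2 * lam) M).det := by
    rw [← Matrix.det_transpose, Matrix.transpose_add, Matrix.transpose_one,
      Matrix.transpose_transpose]
  rw [h2] at h1
  have h3 := det_Em M
  have h4 : (2 : ℚ) ^ ((M + 1) / 2) * 2 ^ (M / 2) = 2 ^ (M % 2) * (2 ^ (M / 2) * 2 ^ (M / 2)) := by
    simp only [← pow_add]
    congr 1
    omega
  have h5 : ((2 : ℚ) ^ (M / 2) * 2 ^ (M / 2)) ≠ 0 := by positivity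
  have h6 : (2 ^ (M / 2) * 2 ^ (M / 2)) * (1 + PQ (2 * lam) M).det
      = (2 ^ (M / 2) * 2 ^ (M / 2)) * (2 ^ (M % 2) * (TQ lam ((M + 1) / 2)).det
        * (RQ lam (M / 2)).det) := by
    linear_combination (-(2 : ℚ) ^ (M / 2) * 2 ^ (M / 2) * (1 + PQ (2 * lam) M).det) * h3
      + h1 + ((TQ lam ((M + 1) / 2)).det * (RQ lam (M / 2)).det) * h4
  exact mul_left_cancel₀ h5 h6

end Pool.Agent.H13.Four
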