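import Pool.Agent.H13.Four.Orth

/-!
# H13-FOUR JOB F4: the pivot of the Mills-Robbins-Rumsey determinant
-/

namespace Pool.Agent.H13.Four

open Finset

namespace DiagAux

/-- binomial coefficient with integer lower entry -/
def bz (n : ℕ) (r : ℤ) : ℚ := if 0 ≤ r then (n.choose r.toNat : ℚ) else 0

theorem bz_neg (n : ℕ) {r : ℤ} (h : r < 0) : bz n r = 0 := by
  unfold bz; rw [if_neg (by omega)]

theorem bz_nat (n r : ℕ) : bz n (r : ℤ) = (n.choose r : ℚ) := by
  unfold bz; simp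

theorem bz_gt (n : ℕ) {r : ℤ} (h : (n : ℤ) < r) : bz n r = 0 := by
  obtain ⟨k, rfl⟩ := Int.eq_ofNat_of_zero_le (show 0 ≤ r by omega)
  rw [bz_nat, Nat.choose_eq_zero_of_lt (by omega)]; simp

theorem bz_succ (n : ℕ) (r : ℤ) : bz (n + 1) r = bz n r + bz n (r - 1) := by
  rcases lt_trichotomy r 0 with h | h | h
  · rw [bz_neg _ h, bz_neg _ h, bz_neg _ (by omega)]; simp
  · subst h
    rw [bz_neg n (show (0 : ℤ) - 1 < 0 by omega)]
    have h1 := bz_nat (n + 1) 0
    have h2 := bz_nat n 0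
    simp only [Nat.cast_zero] at h1 h2
    rw [h1, h2]; simp
  · obtain ⟨k, rfl⟩ := Int.eq_ofNat_of_zero_le (show 0 ≤ r - 1 + 0 by omega) |>.imp fun k hk => (show r = ((k + 1 : ℕ) : ℤ) by push_cast; omega)
    have h3 : (((k + 1 : ℕ) : ℤ) - 1) = (k : ℤ) := by push_cast; omega
    rw [h3, bz_nat, bz_nat, bz_nat, Nat.choose_succ_succ]
    push_cast; ring

/-- the coefficients `d_j` -/
def dd (K c j : ℕ) : ℚ := 2 * bz (c - j) (2 * K - 2 * j) + bz (c - j) (2 * K - 2 * j - 1)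

theorem dd_succ (K c j : ℕ) : dd (K + 1) (c + 1) (j + 1) = dd K c j := by
  unfold dd
  rw [Nat.add_sub_add_right]
  have h1 : (2 * ((K + 1 : ℕ) : ℤ) - 2 * ((j + 1 : ℕ) : ℤ)) = 2 * K - 2 * j := by push_cast; ring
  rw [h1]

theorem base_zero (K c : ℕ) :
    ∑ j ∈ range (K + 1), dd K c j * bz j (2 * j - (0 : ℕ)) =
      bz (1 + c) (2 * K - (0 : ℕ)) + (-1) ^ 0 * bz (c - 0) (2 * K - (0 : ℕ)) := by
  rw [Finset.sum_range_succ']
  have h : ∀ j ∈ range K, dd K c (j + 1) * bz (j + 1) (2 * ((j + 1 : ℕ) : ℤ) - (0 : ℕ)) = 0 := by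
    intro j _
    rw [bz_gt (j + 1) (by push_cast; omega)]; simp
  rw [Finset.sum_eq_zero h]
  unfold dd
  have h1 : (2 * ((0 : ℕ) : ℤ) - ((0 : ℕ) : ℤ)) = ((0 : ℕ) : ℤ) := by simp
  rw [h1, bz_nat, add_comm 1 c, bz_succ]
  simp
  ring

theorem base_one (K c : ℕ) (hc : 1 ≤ c) :
    ∑ j ∈ range (K + 1), dd K c j * bz j (2 * j - (1 : ℕ)) =
      bz (1 + c) (2 * K - (1 : ℕ)) + (-1) ^ 1 * bz (c - 1) (2 * K - (1 : ℕ)) := by
  obtain ⟨c, rfl⟩ : ∃ c', c = c' + 1 := ⟨c - 1, by omega⟩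
  rcases K with _ | K
  · simp only [zero_add, Finset.sum_range_one]
    rw [bz_neg 0 (by simp), bz_neg (1 + (c + 1)) (by simp), bz_neg _ (by simp)]
    simp
  · rw [Finset.sum_range_succ', Finset.sum_range_succ']
    have h : ∀ j ∈ range K, dd (K + 1) (c + 1) (j + 1 + 1) *
        bz (j + 1 + 1) (2 * ((j + 1 + 1 : ℕ) : ℤ) - (1 : ℕ)) = 0 := by
      intro j _
      rw [bz_gt (j + 1 + 1) (by push_cast; omega)]; simp
    rw [Finset.sum_eq_zero h]
    have h0 : bz 0 (2 * ((0 : ℕ) : ℤ) - ((1 : ℕ) : ℤ)) = 0 := bz_neg 0 (by simp)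
    have h1 : (2 * ((0 + 1 : ℕ) : ℤ) - ((1 : ℕ) : ℤ)) = ((1 : ℕ) : ℤ) := by simp
    rw [h0, h1, bz_nat, dd_succ]
    unfold dd
    have h2 : 1 + (c + 1) = c + 1 + 1 := by omega
    rw [h2, bz_succ (c + 1), bz_succ c, bz_succ c]
    have h3 : (2 * ((K + 1 : ℕ) : ℤ) - ((1 : ℕ) : ℤ) - 1) = 2 * K - 2 * ((0 : ℕ) : ℤ) := by
      push_cast; ring
    rw [h3]
    simp
    ring

theorem main_zero : ∀ (m K c : ℕ), m ≤ c → K ≤ c →
    ∑ j ∈ range (K + 1), dd K c j * bz j (2 * j - (m : ℕ)) =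
      bz (1 + c) (2 * K - (m : ℕ)) + (-1) ^ m * bz (c - m) (2 * K - (m : ℕ)) := by
  intro m
  induction m using Nat.strong_induction_on with
  | _ m ih =>
    intro K c hm hK
    rcases m with _ | _ | m
    · exact base_zero K c
    · exact base_one K c (by omega)
    · rcases K with _ | K
      · simp only [zero_add, Finset.sum_range_one]
        rw [bz_neg 0 (by push_cast; omega), bz_neg (1 + c) (by push_cast; omega),
          bz_neg _ (by push_cast; omega)]
        simp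
      · obtain ⟨c, rfl⟩ : ∃ c', c = c' + 1 := ⟨c - 1, by omega⟩
        have i1 := ih m (by omega) K c (by omega) (by omega)
        have i2 := ih (m + 1) (by omega) K c (by omega) (by omega)
        rw [Finset.sum_range_succ']
        have h0 : bz 0 (2 * ((0 : ℕ) : ℤ) - ((m + 1 + 1 : ℕ) : ℤ)) = 0 :=
          bz_neg 0 (by push_cast; omega)
        rw [h0, mul_zero, add_zero]
        have hs : ∑ j ∈ range (K + 1), dd (K + 1) (c + 1) (j + 1) *
            bz (j + 1) (2 * ((j + 1 : ℕ) : ℤ) - ((m + 1 + 1 : ℕ) : ℤ)) =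
            ∑ j ∈ range (K + 1), dd K c j * bz j (2 * j - (m : ℕ)) +
            ∑ j ∈ range (K + 1), dd K c j * bz j (2 * j - ((m + 1 : ℕ) : ℤ)) := by
          rw [← Finset.sum_add_distrib]
          refine Finset.sum_congr rfl fun j _ => ?_
          rw [dd_succ, bz_succ]
          have e1 : (2 * ((j + 1 : ℕ) : ℤ) - ((m + 1 + 1 : ℕ) : ℤ)) = 2 * j - (m : ℕ) := by
            push_cast; ring
          have e2 : (2 * (j : ℤ) - (m : ℕ) - 1) = 2 * j - ((m + 1 : ℕ) : ℤ) := by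
            push_cast; ring
          rw [e1, e2]
          ring
        rw [hs, i1, i2]
        have e3 : 1 + (c + 1) = (1 + c) + 1 := by omega
        have e4 : c - m = (c - (m + 1)) + 1 := by omega
        have e5 : c + 1 - (m + 1 + 1) = c - (m + 1) := by omega
        have e6 : (2 * ((K + 1 : ℕ) : ℤ) - ((m + 1 + 1 : ℕ) : ℤ)) = 2 * K - (m : ℕ) := by
          push_cast; ring
        have e7 : (2 * (K : ℤ) - (m : ℕ) - 1) = 2 * K - ((m + 1 : ℕ) : ℤ) := by
          push_cast; ring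
        rw [e5, e4, bz_succ (c - (m + 1)), e3, bz_succ (1 + c), e6, e7]
        ring

theorem main_a : ∀ (n m K c : ℕ), n + m ≤ c → K ≤ c →
    ∑ j ∈ range (K + 1), dd K c j * bz (n + j) (2 * j - (m : ℕ)) =
      bz (n + 1 + c) (2 * K - (m : ℕ)) + (-1) ^ m * bz (c - n - m) (2 * K - (m : ℕ)) := by
  intro n
  induction n with
  | zero =>
    intro m K c hm hK
    have := main_zero m K c (by omega) hK
    simpa using this
  | succ n ih =>
    intro m K c hm hK
    have i1 := ih m K c (by omega) hK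
    have i2 := ih (m + 1) K c (by omega) hK
    have hs : ∑ j ∈ range (K + 1), dd K c j * bz (n + 1 + j) (2 * j - (m : ℕ)) =
        ∑ j ∈ range (K + 1), dd K c j * bz (n + j) (2 * j - (m : ℕ)) +
        ∑ j ∈ range (K + 1), dd K c j * bz (n + j) (2 * j - ((m + 1 : ℕ) : ℤ)) := by
      rw [← Finset.sum_add_distrib]
      refine Finset.sum_congr rfl fun j _ => ?_
      have e0 : n + 1 + j = (n + j) + 1 := by omega
      have e2 : (2 * (j : ℤ) - (m : ℕ) - 1) = 2 * j - ((m + 1 : ℕ) : ℤ) := by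
        push_cast; ring
      rw [e0, bz_succ, e2]
      ring
    rw [hs, i1, i2]
    have e3 : n + 1 + 1 + c = (n + 1 + c) + 1 := by omega
    have e4 : c - n - m = (c - (n + 1) - m) + 1 := by omega
    have e5 : c - n - (m + 1) = c - (n + 1) - m := by omega
    have e7 : (2 * (K : ℤ) - (m : ℕ) - 1) = 2 * K - ((m + 1 : ℕ) : ℤ) := by
      push_cast; ring
    rw [e5, e4, bz_succ (c - (n + 1) - m), e3, bz_succ (n + 1 + c), e7]
    ring

theorem TT_eq_bz (lam i j : ℕ) : TT lam i j = bz (i + j + lam) (2 * j - i) := by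
  unfold TT bz
  by_cases h : i ≤ 2 * j
  · rw [if_pos h, if_pos (by omega)]
    congr 2
    omega
  · rw [if_neg h, if_neg (by omega)]

theorem sum_dd_TT (lam k i : ℕ) (hi : 1 ≤ i) (hik : i ≤ k) :
    ∑ j ∈ range (k + 1), dd k (lam + 2 * k) j * TT lam i j =
      (((i + 2 * lam + 1 + 2 * k).choose (2 * k - i) : ℕ) : ℚ) := by
  have h := main_a (i + lam) i k (lam + 2 * k) (by omega) (by omega)
  have h1 : ∑ j ∈ range (k + 1), dd k (lam + 2 * k) j * TT lam i j =
      ∑ j ∈ range (k + 1), dd k (lam + 2 * k) j * bz (i + lam + j) (2 * j - (i : ℕ)) := by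
    refine Finset.sum_congr rfl fun j _ => ?_
    rw [TT_eq_bz]
    congr 2
    omega
  rw [h1, h]
  have h2 : bz (lam + 2 * k - (i + lam) - i) (2 * k - (i : ℕ)) = 0 := bz_gt _ (by omega)
  rw [h2, mul_zero, add_zero]
  have h3 : (2 * (k : ℤ) - (i : ℕ)) = ((2 * k - i : ℕ) : ℤ) := by
    rw [Nat.cast_sub (by omega)]; push_cast; ring
  rw [h3, bz_nat]
  congr 2
  omega

theorem dd_last (k c : ℕ) : dd k c k = 2 := by
  unfold dd
  have h1 : (2 * (k : ℤ) - 2 * k) = ((0 : ℕ) : ℤ) := by simp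
  rw [h1, bz_nat, bz_neg _ (by simp)]
  simp

/-- the partial fraction identity -/
theorem pf (a : ℚ) : ∀ (N : ℕ) (x : ℚ), (∀ j ∈ range (N + 1), x + j ≠ 0) →
    ∑ m ∈ range (N + 1), (-1 : ℚ) ^ m * (N.choose m : ℚ) * (∏ t ∈ range N, (a - m + t)) / (m + x) =
      (∏ t ∈ range N, (a + x + t)) * (N.factorial : ℚ) / ∏ j ∈ range (N + 1), (x + j) := by
  intro N
  induction N with
  | zero => intro x hx; simp
  | succ N ih =>
    intro x hx
    have hx0 : ∀ j ∈ range (N + 1), x + j ≠ 0 := fun j hj => hx j (by simp at hj ⊢; omega)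
    have hx1 : ∀ j ∈ range (N + 1), (x + 1) + j ≠ 0 := fun j hj => by
      have := hx (j + 1) (by simp at hj ⊢; omega)
      intro h; apply this; push_cast; linarith
    have i1 := ih x hx0
    have i2 := ih (x + 1) hx1
    -- Pascal
    have hs : ∑ m ∈ range (N + 1 + 1), (-1 : ℚ) ^ m * ((N + 1).choose m : ℚ) *
        (∏ t ∈ range (N + 1), (a - m + t)) / (m + x) =
        (a + N + x) * (∑ m ∈ range (N + 1), (-1 : ℚ) ^ m * (N.choose m : ℚ) *
          (∏ t ∈ range N, (a - m + t)) / (m + x)) -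
        (a + x) * (∑ m ∈ range (N + 1), (-1 : ℚ) ^ m * (N.choose m : ℚ) *
          (∏ t ∈ range N, (a - m + t)) / (m + (x + 1))) := by
      set q : ℕ → ℚ := fun m => ∏ t ∈ range (N + 1), (a - m + t) with hq
      have hq0 : ∀ m : ℕ, q m = (a - m + N) * ∏ t ∈ range N, (a - m + t) := by
        intro m; rw [hq]; simp only; rw [Finset.prod_range_succ]; ring
      have hq1 : ∀ m : ℕ, q (m + 1) = (a - m - 1) * ∏ t ∈ range N, (a - m + t) := by
        intro m; rw [hq]; simp only; rw [Finset.prod_range_succ']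
        rw [mul_comm]
        congr 1
        · push_cast; ring
        · refine Finset.prod_congr rfl fun t _ => ?_
          push_cast; ring
      have e1 : ∑ m ∈ range (N + 1 + 1), (-1 : ℚ) ^ m * ((N + 1).choose m : ℚ) * q m / (m + x) =
          ∑ m ∈ range (N + 1), (-1 : ℚ) ^ m * (N.choose m : ℚ) *
            (q m / (m + x) - q (m + 1) / (m + 1 + x)) := by
        rw [Finset.sum_range_succ']
        have e2 : ∀ m ∈ range (N + 1), (-1 : ℚ) ^ (m + 1) * ((N + 1).choose (m + 1) : ℚ) *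
            q (m + 1) / (((m + 1 : ℕ) : ℚ) + x) =
            (-1 : ℚ) ^ (m + 1) * (N.choose (m + 1) : ℚ) * q (m + 1) / (((m + 1 : ℕ) : ℚ) + x) +
            - ((-1 : ℚ) ^ m * (N.choose m : ℚ) * (q (m + 1) / (m + 1 + x))) := by
          intro m _
          rw [Nat.choose_succ_succ]
          push_cast
          rw [pow_succ]
          ring
        rw [Finset.sum_congr rfl e2, Finset.sum_add_distrib]
        have e3 : ∑ m ∈ range (N + 1), (-1 : ℚ) ^ (m + 1) * (N.choose (m + 1) : ℚ) *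
            q (m + 1) / (((m + 1 : ℕ) : ℚ) + x) +
            (-1 : ℚ) ^ 0 * ((N + 1).choose 0 : ℚ) * q 0 / (((0 : ℕ) : ℚ) + x) =
            ∑ m ∈ range (N + 1), (-1 : ℚ) ^ m * (N.choose m : ℚ) * (q m / (m + x)) := by
          have := Finset.sum_range_succ' (fun m : ℕ => (-1 : ℚ) ^ m * (N.choose m : ℚ) *
            q m / ((m : ℚ) + x)) (N + 1)
          simp only [Nat.choose_zero_right] at this ⊢
          rw [← this, Finset.sum_range_succ, Nat.choose_succ_self]
          simp only [Nat.cast_zero, mul_zero, zero_mul, zero_div, add_zero]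
          refine Finset.sum_congr rfl fun m _ => ?_
          ring
        rw [add_right_comm, e3, ← Finset.sum_add_distrib]
        refine Finset.sum_congr rfl fun m _ => ?_
        ring
      rw [e1, Finset.mul_sum, Finset.mul_sum, ← Finset.sum_sub_distrib]
      refine Finset.sum_congr rfl fun m hm => ?_
      rw [hq0, hq1]
      have hm0 : (m : ℚ) + x ≠ 0 := by
        have := hx0 m hm; rw [add_comm]; exact this
      have hm1 : (m : ℚ) + 1 + x ≠ 0 := by
        have := hx1 m hm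
        intro h; apply this; linarith
      have hm2 : (m : ℚ) + (x + 1) ≠ 0 := by
        intro h; apply hm1; linarith
      field_simp
      ring
    rw [hs, i1, i2]
    have hp0 : (∏ j ∈ range (N + 1), (x + j)) ≠ 0 := Finset.prod_ne_zero_iff.mpr hx0
    have hp1 : (∏ j ∈ range (N + 1), ((x + 1) + j)) ≠ 0 := Finset.prod_ne_zero_iff.mpr hx1
    have hp2 : (∏ j ∈ range (N + 1 + 1), (x + j)) ≠ 0 := Finset.prod_ne_zero_iff.mpr hx
    have r1 : (∏ j ∈ range (N + 1 + 1), (x + j)) = (∏ j ∈ range (N + 1), (x + j)) * (x + (N + 1)) := by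
      rw [Finset.prod_range_succ]; push_cast; ring
    have r2 : (∏ j ∈ range (N + 1 + 1), (x + j)) = (∏ j ∈ range (N + 1), ((x + 1) + j)) * x := by
      rw [Finset.prod_range_succ']
      congr 1
      · refine Finset.prod_congr rfl fun j _ => ?_
        push_cast; ring
      · simp
    have s1 : ∏ t ∈ range (N + 1), (a + x + t) = (∏ t ∈ range N, (a + x + t)) * (a + x + N) := by
      rw [Finset.prod_range_succ]
    have s2 : ∏ t ∈ range (N + 1), (a + x + t) = (∏ t ∈ range N, (a + (x + 1) + t)) * (a + x) := by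
      rw [Finset.prod_range_succ']
      congr 1
      · refine Finset.prod_congr rfl fun j _ => ?_
        push_cast; ring
      · simp
    have t1 : (a + N + x) * ((∏ t ∈ range N, (a + x + t)) * (N.factorial : ℚ) /
        ∏ j ∈ range (N + 1), (x + j)) =
        (∏ t ∈ range (N + 1), (a + x + t)) * (N.factorial : ℚ) * (x + (N + 1)) /
          ∏ j ∈ range (N + 1 + 1), (x + j) := by
      rw [s1, r1]
      have : x + ((N : ℚ) + 1) ≠ 0 := by
        have := hx (N + 1) (by simp)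
        push_cast at this; exact this
      field_simp
      ring
    have t2 : (a + x) * ((∏ t ∈ range N, (a + (x + 1) + t)) * (N.factorial : ℚ) /
        ∏ j ∈ range (N + 1), (x + 1 + j)) =
        (∏ t ∈ range (N + 1), (a + x + t)) * (N.factorial : ℚ) * x /
          ∏ j ∈ range (N + 1 + 1), (x + j) := by
      rw [s2, r2]
      have : x ≠ 0 := by
        have := hx 0 (by simp)
        simpa using this
      field_simp
    rw [t1, t2, Nat.factorial_succ]
    push_cast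
    field_simp
    ring

theorem ev_step (lam k i : ℕ) (h : i < k) :
    ev lam k i = (-((i : ℚ) * (2 * k - i - 1) * (2 * k + 2 * lam + i + 2)) /
      (2 * (k - i) * (2 * k + 2 * i + 2 * lam + 1) * (i + 1 + lam))) * ev lam k (i + 1) := by
  unfold ev
  rw [if_neg (by omega), if_neg (by omega), Finset.prod_eq_prod_Ico_succ_bot h]

theorem ev_self (lam k : ℕ) : ev lam k k = 1 := by
  unfold ev; simp

theorem ev_zero (lam k : ℕ) (h : 0 < k) : ev lam k 0 = 0 := by
  rw [ev_step lam k 0 h]; simp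

theorem choose_step (N r : ℕ) (h : r < N) :
    ((N.choose (r + 1) : ℕ) : ℚ) * ((r + 1) * (N + 1)) =
      (((N + 1).choose r : ℕ) : ℚ) * ((N + 1 - r) * (N - r)) := by
  have h1 := Nat.choose_succ_right_eq N r
  have h2 := Nat.choose_mul_succ_eq N r
  have h1' : ((N.choose (r + 1) : ℕ) : ℚ) * (r + 1) = (N.choose r : ℚ) * (N - r) := by
    have := congrArg (fun x : ℕ => (x : ℚ)) h1
    push_cast at this
    rw [Nat.cast_sub (by omega)] at this
    exact this
  have h2' : ((N.choose r : ℕ) : ℚ) * (N + 1) = ((N + 1).choose r : ℚ) * (N + 1 - r) := by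
    have := congrArg (fun x : ℕ => (x : ℚ)) h2
    push_cast at this
    rw [Nat.cast_sub (by omega)] at this
    push_cast at this
    exact this
  calc _ = ((N.choose (r + 1) : ℚ) * (r + 1)) * (N + 1) := by ring
    _ = ((N.choose r : ℚ) * (N + 1)) * (N - r) := by rw [h1']; ring
    _ = _ := by rw [h2']; ring

theorem alg_aux (k m : ℕ) (l : ℕ) (F s C A : ℚ) (n1 : (m : ℚ) + 1 ≠ 0) (n2 : (m : ℚ) + (k + 1) ≠ 0)
    (n3 : (k : ℚ) + m + 2 ≠ 0) (n4 : (4 * k - 2 * m + 2 * l + 3 : ℚ) ≠ 0)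
    (n5 : (k - m + 1 + l : ℚ) ≠ 0) (n6 : (3 * k - m + 2 * l + 4 : ℚ) ≠ 0) :
    -(((k : ℚ) - m) * (k + m + 1) * (3 * k - m + 2 * l + 4)) /
        (2 * (m + 1) * (4 * k - 2 * m + 2 * l + 3) * (k - m + 1 + l)) *
        (((2 * k - 2 * m + 2 * l + 3) * (2 * k - 2 * m + 2 * l + 2)) /
        ((k + m + 2) * (3 * k - m + 2 * l + 4))) * (F * (k + 1) * (s * C * A) / (m + (k + 1))) =
    F * ((k + 1 : ℕ) : ℚ) * (s * -1 * (C * (k - m) / (m + 1)) *
      (A * (2 * k - 2 * m + 2 * l + 3) / (4 * k - 2 * m + 2 * l + 3)) /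
      (((m + 1 : ℕ) : ℚ) + ((k + 1 : ℕ) : ℚ))) := by
  obtain ⟨Y, hY⟩ : ∃ Y : ℚ, Y = 4 * k - 2 * m + 2 * l + 3 := ⟨_, rfl⟩
  obtain ⟨Z, hZ⟩ : ∃ Z : ℚ, Z = k - m + 1 + l := ⟨_, rfl⟩
  obtain ⟨W, hW⟩ : ∃ W : ℚ, W = 3 * k - m + 2 * l + 4 := ⟨_, rfl⟩
  obtain ⟨V, hV⟩ : ∃ V : ℚ, V = k + m + 2 := ⟨_, rfl⟩
  obtain ⟨U, hU⟩ : ∃ U : ℚ, U = m + (k + 1) := ⟨_, rfl⟩
  obtain ⟨X, hX⟩ : ∃ X : ℚ, X = m + 1 := ⟨_, rfl⟩
  have e1 : (2 * k - 2 * m + 2 * l + 2 : ℚ) = 2 * Z := by rw [hZ]; ring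
  have e2 : (k + m + 1 : ℚ) = U := by rw [hU]; ring
  have e3 : (((m + 1 : ℕ) : ℚ) + ((k + 1 : ℕ) : ℚ)) = V := by rw [hV]; push_cast; ring
  rw [e1, e2, e3, ← hY, ← hZ, ← hW, ← hV, ← hU, ← hX]
  rw [← hY] at n4
  rw [← hZ] at n5
  rw [← hW] at n6
  rw [← hV] at n3
  rw [← hU] at n2
  rw [← hX] at n1
  push_cast
  field_simp

/-- the summand -/
theorem summand (lam k : ℕ) : ∀ m : ℕ, m < k →
    ev lam k (k - m) * (((k - m + 2 * lam + 1 + 2 * k).choose (2 * k - (k - m)) : ℕ) : ℚ) *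
      (∏ t ∈ range (k - 1), ((lam : ℚ) + k + 3 / 2 + t)) =
    (((3 * k + 2 * lam + 1).choose k : ℕ) : ℚ) * k *
      ((-1 : ℚ) ^ m * ((k - 1).choose m : ℚ) *
        (∏ t ∈ range (k - 1), ((lam : ℚ) + k + 3 / 2 - m + t)) / (m + k)) := by
  intro m
  induction m with
  | zero =>
    intro hk
    have hk' : (k : ℚ) ≠ 0 := by positivity
    have e1 : k - 0 + 2 * lam + 1 + 2 * k = 3 * k + 2 * lam + 1 := by omega
    have e2 : 2 * k - (k - 0) = k := by omega
    rw [e1, e2, Nat.sub_zero, ev_self]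
    simp
    field_simp
  | succ m ih =>
    intro hm
    obtain ⟨k, rfl⟩ : ∃ k', k = k' + 1 := ⟨k - 1, by omega⟩
    have ih' := ih (by omega)
    obtain ⟨i, hi⟩ : ∃ i, i + (m + 1) = k + 1 := ⟨k + 1 - (m + 1), by omega⟩
    have e1 : k + 1 - (m + 1) = i := by omega
    have e2 : k + 1 - m = i + 1 := by omega
    rw [e1]
    rw [e2] at ih'
    have hiq : (i : ℚ) = k - m := by
      have : ((i + (m + 1) : ℕ) : ℚ) = ((k + 1 : ℕ) : ℚ) := by rw [hi]
      push_cast at this; linarith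
    rw [ev_step lam (k + 1) i (by omega)]
    have e3 : 2 * (k + 1) - i = (2 * (k + 1) - (i + 1)) + 1 := by omega
    set N : ℕ := i + 2 * lam + 1 + 2 * (k + 1) with hN
    set r : ℕ := 2 * (k + 1) - (i + 1) with hr
    have e4 : i + 1 + 2 * lam + 1 + 2 * (k + 1) = N + 1 := by omega
    rw [e4] at ih'
    rw [e3]
    have cs := choose_step N r (by omega)
    have hNq : (N : ℚ) = i + 2 * lam + 1 + 2 * (k + 1) := by rw [hN]; push_cast; ring
    have hrq : (r : ℚ) = 2 * (k + 1) - (i + 1) := by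
      rw [hr, Nat.cast_sub (by omega)]; push_cast; ring
    -- products
    set P : ℚ := ∏ t ∈ range (k + 1 - 1), ((lam : ℚ) + ((k + 1 : ℕ) : ℚ) + 3 / 2 + t) with hP
    have hq1 : (∏ t ∈ range (k + 1 - 1), ((lam : ℚ) + ((k + 1 : ℕ) : ℚ) + 3 / 2 - (m : ℚ) + t)) *
        ((lam : ℚ) + (k + 1) + 3 / 2 - m - 1) =
        (∏ t ∈ range (k + 1 - 1), ((lam : ℚ) + ((k + 1 : ℕ) : ℚ) + 3 / 2 - ((m + 1 : ℕ) : ℚ) + t)) *
        ((lam : ℚ) + (k + 1) + 3 / 2 - m + (k - 1)) := by
      obtain ⟨k', rfl⟩ : ∃ k', k = k' + 1 := ⟨k - 1, by omega⟩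
      simp only [Nat.add_sub_cancel]
      rw [Finset.prod_range_succ, Finset.prod_range_succ']
      have : ∏ t ∈ range k', ((lam : ℚ) + ((k' + 1 + 1 : ℕ) : ℚ) + 3 / 2 - ((m + 1 : ℕ) : ℚ) +
          ((t + 1 : ℕ) : ℚ)) =
          ∏ t ∈ range k', ((lam : ℚ) + ((k' + 1 + 1 : ℕ) : ℚ) + 3 / 2 - (m : ℚ) + t) := by
        refine Finset.prod_congr rfl fun t _ => ?_
        push_cast; ring
      rw [this]
      push_cast
      ring
    set A : ℚ := ∏ t ∈ range (k + 1 - 1), ((lam : ℚ) + ((k + 1 : ℕ) : ℚ) + 3 / 2 - (m : ℚ) + t)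
      with hA
    set B : ℚ := ∏ t ∈ range (k + 1 - 1), ((lam : ℚ) + ((k + 1 : ℕ) : ℚ) + 3 / 2 -
      ((m + 1 : ℕ) : ℚ) + t) with hB
    have hcm : (((k + 1 - 1).choose (m + 1) : ℕ) : ℚ) * (m + 1) =
        (((k + 1 - 1).choose m : ℕ) : ℚ) * (k - m) := by
      simp only [Nat.add_sub_cancel]
      have := congrArg (fun x : ℕ => (x : ℚ)) (Nat.choose_succ_right_eq k m)
      push_cast at this
      rw [Nat.cast_sub (by omega)] at this
      exact this
    set C1 : ℚ := (((k + 1 - 1).choose (m + 1) : ℕ) : ℚ) with hC1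
    set C0 : ℚ := (((k + 1 - 1).choose m : ℕ) : ℚ) with hC0
    set D1 : ℚ := ((N.choose (r + 1) : ℕ) : ℚ) with hD1
    set D0 : ℚ := (((N + 1).choose r : ℕ) : ℚ) with hD0
    set E : ℚ := ev lam (k + 1) (i + 1) with hE
    set F : ℚ := (((3 * (k + 1) + 2 * lam + 1).choose (k + 1) : ℕ) : ℚ) with hF
    -- nonvanishing
    have hmk : (m : ℚ) + 1 ≤ k := by
      have : m + 1 ≤ k := by omega
      exact_mod_cast this
    have hm0 : (0 : ℚ) ≤ m := by positivity
    have hl0 : (0 : ℚ) ≤ lam := by positivity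
    have n1 : (m : ℚ) + 1 ≠ 0 := by positivity
    have n2 : (m : ℚ) + (k + 1) ≠ 0 := by positivity
    have n3 : (k : ℚ) + m + 2 ≠ 0 := by positivity
    have n4 : (4 * k - 2 * m + 2 * lam + 3 : ℚ) ≠ 0 := by
      have : (0 : ℚ) < 4 * k - 2 * m + 2 * lam + 3 := by linarith
      exact this.ne'
    have n5 : (k - m + 1 + lam : ℚ) ≠ 0 := by
      have : (0 : ℚ) < k - m + 1 + lam := by linarith
      exact this.ne'
    have n6 : (3 * k - m + 2 * lam + 4 : ℚ) ≠ 0 := by
      have : (0 : ℚ) < 3 * k - m + 2 * lam + 4 := by linarith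
      exact this.ne'
    -- solve for the new quantities
    have hD : D1 = D0 * ((2 * k - 2 * m + 2 * lam + 3) * (2 * k - 2 * m + 2 * lam + 2)) /
        ((k + m + 2) * (3 * k - m + 2 * lam + 4)) := by
      rw [eq_div_iff (mul_ne_zero n3 n6)]
      rw [hNq, hrq, hiq] at cs
      linear_combination cs
    have hB' : B = A * (2 * k - 2 * m + 2 * lam + 3) / (4 * k - 2 * m + 2 * lam + 3) := by
      rw [eq_div_iff n4]
      linear_combination (-2) * hq1
    have hC' : C1 = C0 * (k - m) / (m + 1) := by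
      rw [eq_div_iff n1]
      exact hcm
    have hE' : E * D0 * P = F * (k + 1) * ((-1) ^ m * C0 * A) / (m + (k + 1)) := by
      rw [ih']
      push_cast
      ring
    have hf : (-((i : ℚ) * (2 * ((k + 1 : ℕ) : ℚ) - i - 1) * (2 * ((k + 1 : ℕ) : ℚ) + 2 * lam + i + 2)) /
      (2 * (((k + 1 : ℕ) : ℚ) - i) * (2 * ((k + 1 : ℕ) : ℚ) + 2 * i + 2 * lam + 1) * (i + 1 + lam))) =
      -((k - m) * (k + m + 1) * (3 * k - m + 2 * lam + 4)) /
        (2 * (m + 1) * (4 * k - 2 * m + 2 * lam + 3) * (k - m + 1 + lam)) := by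
      rw [hiq]
      push_cast
      congr 1 <;> ring
    rw [hf, hD, hC', hB']
    have e9 : -((k - m) * (k + m + 1) * (3 * k - m + 2 * lam + 4)) /
        (2 * (m + 1) * (4 * k - 2 * m + 2 * lam + 3) * (k - m + 1 + lam)) * E *
        (D0 * ((2 * k - 2 * m + 2 * lam + 3) * (2 * k - 2 * m + 2 * lam + 2)) /
        ((k + m + 2) * (3 * k - m + 2 * lam + 4))) * P =
        -((k - m) * (k + m + 1) * (3 * k - m + 2 * lam + 4)) /
        (2 * (m + 1) * (4 * k - 2 * m + 2 * lam + 3) * (k - m + 1 + lam)) *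
        (((2 * k - 2 * m + 2 * lam + 3) * (2 * k - 2 * m + 2 * lam + 2)) /
        ((k + m + 2) * (3 * k - m + 2 * lam + 4))) * (E * D0 * P) := by ring
    rw [e9, hE', pow_succ]
    exact alg_aux k m lam F ((-1) ^ m) C0 A n1 n2 n3 n4 n5 n6

theorem choose_top (lam k : ℕ) :
    (((3 * k + 2 * lam + 1).choose k : ℕ) : ℚ) * (k.factorial : ℚ) =
      ∏ t ∈ range k, (2 * (lam : ℚ) + 2 * k + 2 + t) := by
  have h1 := Nat.ascFactorial_eq_factorial_mul_choose (2 * lam + 2 * k + 1) k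
  have h2 : 2 * lam + 2 * k + 1 + k = 3 * k + 2 * lam + 1 := by omega
  rw [h2, Nat.ascFactorial_eq_prod_range] at h1
  have h3 := congrArg (fun x : ℕ => (x : ℚ)) h1
  push_cast at h3
  rw [mul_comm, ← h3]
  refine Finset.prod_congr rfl fun t _ => ?_
  ring

theorem diag_of (lam k : ℕ)
    (horth : ∀ j, j < k → ∑ i ∈ range (k + 1), ev lam k i * TT lam i j = 0) :
    ∑ i ∈ range (k + 1), ev lam k i * TT lam i k = tau lam k := by
  rcases Nat.eq_zero_or_pos k with rfl | hk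
  · simp [tau, ev, TT]
  · -- twice the pivot
    have h1 : ∑ i ∈ range (k + 1), ev lam k i *
        (∑ j ∈ range (k + 1), dd k (lam + 2 * k) j * TT lam i j) =
        2 * ∑ i ∈ range (k + 1), ev lam k i * TT lam i k := by
      have : ∑ i ∈ range (k + 1), ev lam k i *
          (∑ j ∈ range (k + 1), dd k (lam + 2 * k) j * TT lam i j) =
          ∑ j ∈ range (k + 1), dd k (lam + 2 * k) j *
            (∑ i ∈ range (k + 1), ev lam k i * TT lam i j) := by
        simp_rw [Finset.mul_sum]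
        rw [Finset.sum_comm]
        refine Finset.sum_congr rfl fun j _ => Finset.sum_congr rfl fun i _ => ?_
        ring
      rw [this, Finset.sum_range_succ, dd_last]
      rw [Finset.sum_eq_zero (fun j hj => by rw [horth j (Finset.mem_range.mp hj), mul_zero]),
        zero_add]
    have h2 : ∑ i ∈ range (k + 1), ev lam k i *
        (∑ j ∈ range (k + 1), dd k (lam + 2 * k) j * TT lam i j) =
        ∑ m ∈ range k, ev lam k (k - m) *
          (((k - m + 2 * lam + 1 + 2 * k).choose (2 * k - (k - m)) : ℕ) : ℚ) := by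
      rw [Finset.sum_range_succ', ev_zero lam k hk, zero_mul, add_zero,
        ← Finset.sum_range_reflect]
      refine Finset.sum_congr rfl fun m hm => ?_
      have hm' := Finset.mem_range.mp hm
      have e1 : k - 1 - m + 1 = k - m := by omega
      rw [e1, sum_dd_TT lam k (k - m) (by omega) (by omega)]
    set P : ℚ := ∏ t ∈ range (k - 1), ((lam : ℚ) + k + 3 / 2 + t) with hP
    have hP0 : P ≠ 0 := by
      rw [hP]
      refine Finset.prod_ne_zero_iff.mpr fun t _ => ?_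
      positivity
    have h3 : (∑ m ∈ range k, ev lam k (k - m) *
          (((k - m + 2 * lam + 1 + 2 * k).choose (2 * k - (k - m)) : ℕ) : ℚ)) * P =
        (((3 * k + 2 * lam + 1).choose k : ℕ) : ℚ) * k *
        ∑ m ∈ range k, ((-1 : ℚ) ^ m * ((k - 1).choose m : ℚ) *
        (∏ t ∈ range (k - 1), ((lam : ℚ) + k + 3 / 2 - m + t)) / (m + k)) := by
      rw [Finset.sum_mul, Finset.mul_sum]
      refine Finset.sum_congr rfl fun m hm => ?_
      exact summand lam k m (Finset.mem_range.mp hm)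
    have h4 := pf ((lam : ℚ) + k + 3 / 2) (k - 1) k (fun j _ => by positivity)
    have hk1 : k - 1 + 1 = k := by omega
    rw [hk1] at h4
    rw [h4] at h3
    have hc := choose_top lam k
    have hfac : (k.factorial : ℚ) = k * ((k - 1).factorial : ℚ) := by
      obtain ⟨k', rfl⟩ : ∃ k', k = k' + 1 := ⟨k - 1, by omega⟩
      rw [Nat.factorial_succ]; simp
    have hpr : (∏ t ∈ range (k - 1), ((lam : ℚ) + k + 3 / 2 + k + t)) =
        ∏ t ∈ range (k - 1), ((lam : ℚ) + 2 * k + 3 / 2 + t) :=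
      Finset.prod_congr rfl fun t _ => by ring
    rw [hpr] at h3
    have hden : (∏ j ∈ range k, ((k : ℚ) + j)) ≠ 0 :=
      Finset.prod_ne_zero_iff.mpr fun t _ => by positivity
    have ht : tau lam k = (1 / 2) * (∏ t ∈ range k, (2 * (lam : ℚ) + 2 * k + 2 + t)) *
      (∏ t ∈ range (k - 1), ((lam : ℚ) + 2 * k + 3 / 2 + t)) /
      ((∏ t ∈ range k, ((k : ℚ) + t)) * P) := by
      unfold tau
      rw [if_neg (by omega)]
    have hT : 2 * ∑ i ∈ range (k + 1), ev lam k i * TT lam i k = 2 * tau lam k := by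
      rw [← h1, h2]
      apply mul_right_cancel₀ hP0
      rw [h3, ht, ← hc, hfac]
      field_simp
    linarith

end DiagAux

theorem diag (lam k : ℕ) :
    ∑ i ∈ range (k + 1), ev lam k i * TT lam i k = tau lam k :=
  DiagAux.diag_of lam k fun j hj => orth lam k j hj

end Pool.Agent.H13.Four
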