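import Pool.Agent.H13.Four.Defs
import Pool.Agent.H13.Four.Diag

/-!
# The determinant of the Mills-Robbins-Rumsey matrix as a product of pivots
-/

namespace Pool.Agent.H13.Four

open Finset

lemma ev_self_P (lam k : ℕ) : ev lam k k = 1 := by
  simp [ev]

lemma ev_gt (lam k i : ℕ) (h : k < i) : ev lam k i = 0 := by
  simp [ev, h]

theorem det_TQ_of (lam m : ℕ)
    (horth : ∀ k j : ℕ, j < k → ∑ i ∈ range (k + 1), ev lam k i * TT lam i j = 0)
    (hdiag : ∀ k : ℕ, ∑ i ∈ range (k + 1), ev lam k i * TT lam i k = tau lam k) :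
    (TQ lam m).det = ∏ k ∈ range m, tau lam k := by
  set E : Matrix (Fin m) (Fin m) ℚ := Matrix.of fun k i => ev lam k i with hE
  have hsum : ∀ k j : Fin m, (E * TQ lam m) k j =
      ∑ i ∈ range ((k : ℕ) + 1), ev lam k i * TT lam i j := by
    intro k j
    rw [Matrix.mul_apply]
    simp only [hE, TQ, Matrix.of_apply]
    rw [Fin.sum_univ_eq_sum_range (fun i => ev lam k i * TT lam i j) m]
    symm
    apply Finset.sum_subset
    · intro i hi
      rw [mem_range] at hi ⊢
      have := k.isLt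
      omega
    · intro i _ hi
      rw [mem_range, not_lt] at hi
      rw [ev_gt lam k i (by omega), zero_mul]
  have h1 : E.det = 1 := by
    rw [Matrix.det_of_isLowerTriangular]
    · simp [hE, ev_self_P]
    · intro i j hij
      have hij' : (i : ℕ) < j := hij
      simp [hE, ev_gt lam i j hij']
  have h2 : (E * TQ lam m).det = ∏ k : Fin m, tau lam k := by
    rw [Matrix.det_of_isUpperTriangular]
    · apply Finset.prod_congr rfl
      intro k _
      rw [hsum, hdiag]
    · intro i j hij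
      have hij' : (j : ℕ) < i := hij
      rw [hsum, horth i j hij']
  rw [Matrix.det_mul, h1, one_mul] at h2
  rw [h2, Fin.prod_univ_eq_prod_range (fun k => tau lam k) m]

/-- JOB F5, first part -/
theorem det_TQ (lam m : ℕ) : (TQ lam m).det = ∏ k ∈ range m, tau lam k :=
  det_TQ_of lam m (fun k j h => orth lam k j h) (fun k => diag lam k)

/-- `∏_{t<k} (a + t)` -/
lemma poch_succ (a : ℚ) (k : ℕ) :
    ∏ t ∈ range (k + 1), (a + t) = (∏ t ∈ range k, (a + t)) * (a + k) :=
  Finset.prod_range_succ _ _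

lemma poch_succ' (a : ℚ) (k : ℕ) :
    ∏ t ∈ range (k + 1), (a + t) = a * ∏ t ∈ range k, (a + 1 + t) := by
  rw [Finset.prod_range_succ']
  rw [mul_comm]
  congr 1
  · simp
  · apply Finset.prod_congr rfl
    intro t _
    push_cast
    ring

lemma poch_pos (a : ℚ) (ha : 0 < a) (k : ℕ) : 0 < ∏ t ∈ range k, (a + t) := by
  apply Finset.prod_pos
  intro t _
  positivity

theorem tau_pos (lam k : ℕ) : 0 < tau lam k := by
  unfold tau
  split_ifs with h
  · exact one_pos
  · have hk : (0 : ℚ) < k := by exact_mod_cast Nat.pos_of_ne_zero h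
    apply div_pos
    · apply mul_pos
      · apply mul_pos (by norm_num)
        exact poch_pos (2 * (lam : ℚ) + 2 * k + 2) (by positivity) k
      · exact poch_pos ((lam : ℚ) + 2 * k + 3 / 2) (by positivity) (k - 1)
    · apply mul_pos
      · exact poch_pos (k : ℚ) hk k
      · exact poch_pos ((lam : ℚ) + k + 3 / 2) (by positivity) (k - 1)

theorem tau_ratio (lam k : ℕ) :
    tau (lam + 2) k * (((k : ℚ) + lam + 2) * (6 * k + 2 * lam + 5)) =
      tau lam (k + 1) * ((2 * k + 1) * (3 * k + 2 * lam + 5)) := by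
  rcases k with _ | k
  · have h1 : tau lam (0 + 1) = lam + 2 := by
      unfold tau
      rw [if_neg (by omega)]
      simp
      ring
    have h0 : tau (lam + 2) 0 = 1 := by
      unfold tau
      rw [if_pos rfl]
    rw [h1, h0]
    push_cast
    ring
  · unfold tau
    rw [if_neg (by omega), if_neg (by omega)]
    simp only [Nat.add_sub_cancel]
    -- abbreviations
    set K : ℚ := (k : ℚ) + 1 with hK
    have e1 : ((k + 1 : ℕ) : ℚ) = K := by push_cast; rfl
    have e2 : ((k + 1 + 1 : ℕ) : ℚ) = K + 1 := by push_cast; ring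
    have e3 : ((lam + 2 : ℕ) : ℚ) = (lam : ℚ) + 2 := by push_cast; ring
    rw [e1, e2, e3]
    -- first product
    have a1 : ∏ t ∈ range (k + 1 + 1), (2 * (lam : ℚ) + 2 * (K + 1) + 2 + t) =
        (2 * lam + 2 * K + 4) * (2 * lam + 2 * K + 5) *
          ∏ t ∈ range k, (2 * (lam : ℚ) + 2 * K + 6 + t) := by
      rw [poch_succ', poch_succ']
      rw [show 2 * (lam : ℚ) + 2 * (K + 1) + 2 + 1 + 1 = 2 * (lam : ℚ) + 2 * K + 6 by ring]
      ring
    have a2 : ∏ t ∈ range (k + 1), (2 * ((lam : ℚ) + 2) + 2 * K + 2 + t) =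
        (∏ t ∈ range k, (2 * (lam : ℚ) + 2 * K + 6 + t)) * (2 * lam + 2 * K + 6 + k) := by
      rw [poch_succ]
      rw [show 2 * ((lam : ℚ) + 2) + 2 * K + 2 = 2 * (lam : ℚ) + 2 * K + 6 by ring]
    -- second product
    have b1 : ∏ t ∈ range (k + 1), ((lam : ℚ) + 2 * (K + 1) + 3 / 2 + t) =
        (∏ t ∈ range k, ((lam : ℚ) + 2 * K + 7 / 2 + t)) * (lam + 2 * K + 7 / 2 + k) := by
      rw [poch_succ]
      rw [show (lam : ℚ) + 2 * (K + 1) + 3 / 2 = (lam : ℚ) + 2 * K + 7 / 2 by ring]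
    have b2 : ∏ t ∈ range k, ((lam : ℚ) + 2 + 2 * K + 3 / 2 + t) =
        ∏ t ∈ range k, ((lam : ℚ) + 2 * K + 7 / 2 + t) := by
      rw [show (lam : ℚ) + 2 + 2 * K + 3 / 2 = (lam : ℚ) + 2 * K + 7 / 2 by ring]
    -- third product
    have c0 : ∀ n : ℕ, ∏ t ∈ range n, ((n : ℚ) + 1 + t) = ∏ t ∈ range n, ((n : ℚ) + 1 + t) :=
      fun n => rfl
    have c1 : ∏ t ∈ range (k + 1 + 1), (K + 1 + t) =
        (∏ t ∈ range k, (K + 1 + t)) * (K + 1 + k) * (K + 1 + (k + 1)) := by
      rw [poch_succ, poch_succ]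
      push_cast
      ring
    have c2 : ∏ t ∈ range (k + 1), (K + t) = K * ∏ t ∈ range k, (K + 1 + t) := by
      rw [poch_succ']
    -- fourth product
    have d1 : ∏ t ∈ range (k + 1), ((lam : ℚ) + (K + 1) + 3 / 2 + t) =
        (lam + K + 5 / 2) * ∏ t ∈ range k, ((lam : ℚ) + K + 7 / 2 + t) := by
      rw [poch_succ']
      rw [show (lam : ℚ) + (K + 1) + 3 / 2 + 1 = (lam : ℚ) + K + 7 / 2 by ring,
        show (lam : ℚ) + (K + 1) + 3 / 2 = (lam : ℚ) + K + 5 / 2 by ring]
    have d2 : ∏ t ∈ range k, ((lam : ℚ) + 2 + K + 3 / 2 + t) =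
        ∏ t ∈ range k, ((lam : ℚ) + K + 7 / 2 + t) := by
      rw [show (lam : ℚ) + 2 + K + 3 / 2 = (lam : ℚ) + K + 7 / 2 by ring]
    rw [a1, a2, b1, b2, c1, c2, d1, d2]
    have hKpos : 0 < K := by rw [hK]; positivity
    have p1 := poch_pos (K + 1) (by positivity) k
    have p2 := poch_pos ((lam : ℚ) + K + 7 / 2) (by positivity) k
    have hk : (k : ℚ) = K - 1 := by rw [hK]; ring
    set A := ∏ t ∈ range k, (2 * (lam : ℚ) + 2 * K + 6 + t)
    set B := ∏ t ∈ range k, ((lam : ℚ) + 2 * K + 7 / 2 + t)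
    set Cc := ∏ t ∈ range k, (K + 1 + t)
    set Dd := ∏ t ∈ range k, ((lam : ℚ) + K + 7 / 2 + t)
    have hl : (0 : ℚ) ≤ lam := by positivity
    rw [hk]
    have n1 : Cc ≠ 0 := p1.ne'
    have n2 : Dd ≠ 0 := p2.ne'
    have n3 : K ≠ 0 := hKpos.ne'
    have n4 : K + 1 + (K - 1) ≠ 0 := by
      have : K + 1 + (K - 1) = 2 * K := by ring
      rw [this]; positivity
    have n5 : K + 1 + (K - 1 + 1) ≠ 0 := by
      have : K + 1 + (K - 1 + 1) = 2 * K + 1 := by ring
      rw [this]; positivity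
    have n6 : (lam : ℚ) + K + 5 / 2 ≠ 0 := by positivity
    field_simp
    ring

end Pool.Agent.H13.Four
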