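import Pool.Agent.H13.Four.Defs

/-!
# The odd part reduces to the Mills-Robbins-Rumsey matrix
-/

namespace Pool.Agent.H13.Four

open Finset

lemma choose_succ_rat (N k : ℕ) : (N.choose (k + 1) : ℚ) * (k + 1) = N.choose k * ((N : ℚ) - k) := by
  rcases le_or_gt k N with h | h
  · have h1 := Nat.choose_succ_right_eq N k
    have h2 : ((N.choose (k + 1) * (k + 1) : ℕ) : ℚ) = ((N.choose k * (N - k) : ℕ) : ℚ) := by
      rw [h1]
    push_cast [Nat.cast_sub h] at h2
    exact h2
  · rw [Nat.choose_eq_zero_of_lt h, Nat.choose_eq_zero_of_lt (by omega)]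
    simp

lemma rt_entry (lam i j : ℕ) :
    (3 * (i : ℚ) + 2 * lam + 4) * RR (lam + 1) i j =
      (12 * (j : ℚ) + 4 * lam + 14) * TT lam (i + 1) (j + 1) +
        (3 * (j : ℚ) + lam + 2) * TT lam (i + 1) j := by
  unfold RR TT
  rcases lt_trichotomy i (2 * j) with h | h | h
  · obtain ⟨k, hk⟩ : ∃ k, 2 * j = i + 1 + k := ⟨2 * j - i - 1, by omega⟩
    rw [if_pos (by omega), if_pos (by omega), if_pos (by omega), if_pos (by omega)]
    set N := i + j + lam + 1 with hN
    have e1 : i + j + (lam + 1) + 2 = N + 2 := by omega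
    have e2 : 2 * j + 1 - i = k + 2 := by omega
    have e3 : i + j + (lam + 1) = N := by omega
    have e4 : 2 * j - i = k + 1 := by omega
    have e5 : i + 1 + (j + 1) + lam = N + 1 := by omega
    have e6 : 2 * (j + 1) - (i + 1) = k + 2 := by omega
    have e7 : i + 1 + j + lam = N := by omega
    have e8 : 2 * j - (i + 1) = k := by omega
    rw [e1, e2, e3, e4, e5, e6, e7, e8]
    have c1 := choose_succ_rat N k
    have c2 := choose_succ_rat N (k + 1)
    rw [show k + 1 + 1 = k + 2 by ring] at c2
    have d1 : ((N + 1).choose (k + 2) : ℚ) = N.choose (k + 1) + N.choose (k + 2) := by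
      exact_mod_cast Nat.choose_succ_succ N (k + 1)
    have d2 : ((N + 2).choose (k + 2) : ℚ) = N.choose k + 2 * N.choose (k + 1) + N.choose (k + 2) := by
      have h1 : (N + 2).choose (k + 2) = (N + 1).choose (k + 1) + (N + 1).choose (k + 2) :=
        Nat.choose_succ_succ (N + 1) (k + 1)
      have h2 : (N + 1).choose (k + 1) = N.choose k + N.choose (k + 1) := Nat.choose_succ_succ N k
      have h3 : (N + 1).choose (k + 2) = N.choose (k + 1) + N.choose (k + 2) :=
        Nat.choose_succ_succ N (k + 1)
      rw [h1, h2, h3]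
      push_cast
      ring
    rw [d1, d2]
    have hk1 : ((k : ℚ) + 1) ≠ 0 := by positivity
    have hk2 : ((k : ℚ) + 2) ≠ 0 := by positivity
    have hc1 : (N.choose (k + 1) : ℚ) = N.choose k * ((N : ℚ) - k) / (k + 1) := by
      rw [eq_div_iff hk1]; exact c1
    have hc2 : (N.choose (k + 2) : ℚ) = N.choose (k + 1) * ((N : ℚ) - (k + 1)) / (k + 2) := by
      rw [eq_div_iff hk2]
      push_cast at c2
      linear_combination c2
    rw [hc2, hc1]
    have hNq : (N : ℚ) = i + j + lam + 1 := by rw [hN]; push_cast; ring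
    have hkq : (i : ℚ) = 2 * j - 1 - k := by
      have : ((2 * j : ℕ) : ℚ) = ((i + 1 + k : ℕ) : ℚ) := by rw [hk]
      push_cast at this
      linarith
    rw [hNq, hkq]
    field_simp
    ring
  · subst h
    rw [if_pos (by omega), if_pos (by omega), if_pos (by omega), if_neg (by omega)]
    have e2 : 2 * j + 1 - 2 * j = 1 := by omega
    have e4 : 2 * j - 2 * j = 0 := by omega
    have e6 : 2 * (j + 1) - (2 * j + 1) = 1 := by omega
    rw [e2, e4, e6, Nat.choose_one_right, Nat.choose_zero_right, Nat.choose_one_right]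
    push_cast
    ring
  · rcases Nat.lt_or_ge (2 * j + 1) i with h1 | h1
    · rw [if_neg (by omega), if_neg (by omega), if_neg (by omega), if_neg (by omega)]
      ring
    · have hi : i = 2 * j + 1 := by omega
      subst hi
      rw [if_pos (by omega), if_neg (by omega), if_pos (by omega), if_neg (by omega)]
      have e2 : 2 * j + 1 - (2 * j + 1) = 0 := by omega
      have e6 : 2 * (j + 1) - (2 * j + 1 + 1) = 0 := by omega
      rw [e2, e6, Nat.choose_zero_right, Nat.choose_zero_right]
      push_cast
      ring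

theorem rt (lam m : ℕ) :
    (∏ i ∈ range m, (3 * (i : ℚ) + 2 * lam + 4)) * (RQ (lam + 1) m).det =
      (∏ j ∈ range m, (12 * (j : ℚ) + 4 * lam + 14)) * (TQ lam (m + 1)).det := by
  set S : Matrix (Fin m) (Fin m) ℚ := Matrix.of fun i j => TT lam ((i : ℕ) + 1) ((j : ℕ) + 1) with hS
  set U : Matrix (Fin m) (Fin m) ℚ := Matrix.of fun k j =>
    if (k : ℕ) = j then (12 * ((j : ℕ) : ℚ) + 4 * lam + 14)
    else if (k : ℕ) + 1 = j then (3 * ((j : ℕ) : ℚ) + lam + 2) else 0 with hU
  have h1 : (TQ lam (m + 1)).det = S.det := by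
    rw [Matrix.det_succ_column_zero, Fin.sum_univ_succ]
    have hz : ∀ i : Fin m, TQ lam (m + 1) i.succ 0 = 0 := by
      intro i
      simp [TQ, TT]
    have h0 : TQ lam (m + 1) 0 0 = 1 := by
      simp [TQ, TT]
    simp only [hz, h0]
    simp only [Fin.val_zero, pow_zero, mul_one, one_mul, mul_zero, zero_mul, Finset.sum_const_zero,
      add_zero]
    congr 1
  have h2 : U.det = ∏ j ∈ range m, (12 * (j : ℚ) + 4 * lam + 14) := by
    rw [Matrix.det_of_isUpperTriangular]
    · rw [← Fin.prod_univ_eq_prod_range]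
      apply Finset.prod_congr rfl
      intro j _
      simp [hU]
    · intro i j hij
      have hij' : (j : ℕ) < i := hij
      simp only [hU, Matrix.of_apply]
      rw [if_neg (by omega), if_neg (by omega)]
  have h3 : Matrix.diagonal (fun i : Fin m => (3 * ((i : ℕ) : ℚ) + 2 * lam + 4)) * RQ (lam + 1) m =
      S * U := by
    ext i j
    rw [Matrix.diagonal_mul, Matrix.mul_apply]
    have h4 : RQ (lam + 1) m i j = RR (lam + 1) i j := rfl
    rw [h4, rt_entry]
    rcases j with ⟨j, hj⟩
    rcases j with _ | j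
    · rw [Finset.sum_eq_single ⟨0, hj⟩]
      · simp only [hS, hU, TT, Matrix.of_apply]
        simp
        split_ifs
        · ring
        · rfl
      · intro b _ hb
        have hb' : (b : ℕ) ≠ 0 := fun h => hb (Fin.ext h)
        simp only [hU, Matrix.of_apply]
        rw [if_neg (by simpa using hb'), if_neg (by omega), mul_zero]
      · intro h; exact absurd (Finset.mem_univ _) h
    · rw [Finset.sum_eq_add (⟨j + 1, hj⟩ : Fin m) (⟨j, by omega⟩ : Fin m)]
      · simp only [hS, hU, Matrix.of_apply]
        rw [if_pos trivial, if_neg (by omega), if_pos trivial]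
        ring
      · intro h
        have := congrArg Fin.val h
        simp at this
      · intro c _ hc
        have hc1 : (c : ℕ) ≠ j + 1 := fun h => hc.1 (Fin.ext h)
        have hc2 : (c : ℕ) ≠ j := fun h => hc.2 (Fin.ext h)
        simp only [hU, Matrix.of_apply]
        rw [if_neg hc1, if_neg (by omega), mul_zero]
      · intro h; exact absurd (Finset.mem_univ _) h
      · intro h; exact absurd (Finset.mem_univ _) h
  have h5 := congrArg Matrix.det h3
  rw [Matrix.det_mul, Matrix.det_mul, Matrix.det_diagonal, h2, ← h1] at h5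
  rw [← Fin.prod_univ_eq_prod_range (fun i : ℕ => (3 * (i : ℚ) + 2 * lam + 4)) m, h5]
  ring

end Pool.Agent.H13.Four
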