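import Pool.Agent.H13.Four.Step
import Pool.Agent.H13.Four.Factor
import Pool.Agent.H13.Four.RT
import Pool.Agent.H13.Four.Prod

/-!
# Job F8: the step from `l - 1` to `l`, final form
-/

namespace Pool.Agent.H13.Four

open Finset

/-- JOB F8 -/
theorem step (l : ℕ) (hl : 2 ≤ l) :
    ∃ c C : ℝ, 0 < c ∧ 0 < C ∧ ∀ n : ℕ, l ≤ n →
      0 < (1 + PQ (2 * l) (2 * n - l)).det ∧
      c * (n : ℝ) ^ (-(2 * (l : ℝ) - 1) / 3) ≤
        (((1 + PQ (2 * l) (2 * n - l)).det / (1 + PQ (2 * (l - 1)) (2 * n - l + 1)).det : ℚ) : ℝ) ∧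
      (((1 + PQ (2 * l) (2 * n - l)).det / (1 + PQ (2 * (l - 1)) (2 * n - l + 1)).det : ℚ) : ℝ) ≤
        C * (n : ℝ) ^ (-(2 * (l : ℝ) - 1) / 3) :=
  step_of factor rt det_TQ tau_ratio tau_pos l hl

end Pool.Agent.H13.Four
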