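import Pool.Agent.H13.Four.Base
import Pool.Agent.H13.Four.StepFinal
import Pool.Agent.H51.TA.Main
import Pool.Agent.H98.Izer.Asym3

/-!
# Two-sided bounds for the evaluated determinants
-/

namespace Pool.Agent.H13.Four

open Finset
open scoped Nat

lemma aQ_cast (N : ℕ) : ((aQ N : ℚ) : ℝ) = Pool.Agent.H98.Izer.aR N := by
  unfold aQ Pool.Agent.H98.Izer.aR
  push_cast
  rfl

/-- JOB F9, first form -/
theorem eval_bounds (l : ℕ) (hl : 1 ≤ l) :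
    ∃ c C : ℝ, 0 < c ∧ 0 < C ∧ ∀ n : ℕ, l ≤ n →
      c * (n : ℝ) ^ (-(4 * (l : ℝ) ^ 2 - 1) / 12) ≤
        (((1 + PQ (2 * l) (2 * n - l)).det : ℚ) : ℝ) / Pool.Agent.H98.Izer.bR n ^ 2 ∧
      (((1 + PQ (2 * l) (2 * n - l)).det : ℚ) : ℝ) / Pool.Agent.H98.Izer.bR n ^ 2 ≤
        C * (n : ℝ) ^ (-(4 * (l : ℝ) ^ 2 - 1) / 12) := by
  induction l, hl using Nat.le_induction with
  | base =>
    obtain ⟨c, C, hc, hC, h⟩ := Pool.Agent.H98.Izer.rR_bounds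
    refine ⟨c, C, hc, hC, fun n hn => ?_⟩
    have h1 := h n hn
    have h3 : (1 + PQ (2 * 1) (2 * n - 1)).det = aQ (2 * n) := base n hn
    have h2 : (((1 + PQ (2 * 1) (2 * n - 1)).det : ℚ) : ℝ) / Pool.Agent.H98.Izer.bR n ^ 2 =
        Pool.Agent.H98.Izer.rR n := by
      unfold Pool.Agent.H98.Izer.rR
      rw [← aQ_cast, h3]
    rw [h2]
    have h4 : -(4 * ((1 : ℕ) : ℝ) ^ 2 - 1) / 12 = -(1 / 4 : ℝ) := by norm_num
    rw [h4]
    exact h1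
  | succ l hl ih =>
    obtain ⟨c, C, hc, hC, h⟩ := ih
    obtain ⟨c', C', hc', hC', h'⟩ := step (l + 1) (by omega)
    refine ⟨c' * c, C' * C, mul_pos hc' hc, mul_pos hC' hC, fun n hn => ?_⟩
    obtain ⟨h1, h2⟩ := h n (by omega)
    obtain ⟨h3, h4, h5⟩ := h' n hn
    rw [show 2 * n - (l + 1) + 1 = 2 * n - l by omega, show l + 1 - 1 = l by omega] at h4 h5
    have hn0 : (0 : ℝ) < n := by
      have : 0 < n := by omega
      exact_mod_cast this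
    have hb : 0 < Pool.Agent.H98.Izer.bR n ^ 2 := pow_pos (Pool.Agent.H98.Izer.bR_pos n) 2
    have hp : ∀ x : ℝ, 0 < (n : ℝ) ^ x := fun x => Real.rpow_pos_of_pos hn0 x
    have hD : 0 < (((1 + PQ (2 * l) (2 * n - l)).det : ℚ) : ℝ) := by
      have h6 := (mul_pos hc (hp _)).trans_le h1
      rw [div_pos_iff_of_pos_right hb] at h6
      exact h6
    have he : (n : ℝ) ^ (-(4 * ((l + 1 : ℕ) : ℝ) ^ 2 - 1) / 12) =
        (n : ℝ) ^ (-(2 * ((l + 1 : ℕ) : ℝ) - 1) / 3) * (n : ℝ) ^ (-(4 * (l : ℝ) ^ 2 - 1) / 12) := by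
      rw [← Real.rpow_add hn0]
      congr 1
      push_cast
      ring
    have hq : (((1 + PQ (2 * (l + 1)) (2 * n - (l + 1))).det : ℚ) : ℝ) /
        Pool.Agent.H98.Izer.bR n ^ 2 =
        (((1 + PQ (2 * (l + 1)) (2 * n - (l + 1))).det / (1 + PQ (2 * l) (2 * n - l)).det : ℚ) : ℝ)
        * ((((1 + PQ (2 * l) (2 * n - l)).det : ℚ) : ℝ) / Pool.Agent.H98.Izer.bR n ^ 2) := by
      rw [Rat.cast_div]
      have := hD.ne'
      have := hb.ne'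
      field_simp
    rw [hq, he]
    constructor
    · calc c' * c * ((n : ℝ) ^ (-(2 * ((l + 1 : ℕ) : ℝ) - 1) / 3) *
            (n : ℝ) ^ (-(4 * (l : ℝ) ^ 2 - 1) / 12))
          = (c' * (n : ℝ) ^ (-(2 * ((l + 1 : ℕ) : ℝ) - 1) / 3)) *
            (c * (n : ℝ) ^ (-(4 * (l : ℝ) ^ 2 - 1) / 12)) := by ring
        _ ≤ _ := mul_le_mul h4 h1 (mul_pos hc (hp _)).le
            ((mul_pos hc' (hp _)).le.trans h4)
    · calc _ ≤ (C' * (n : ℝ) ^ (-(2 * ((l + 1 : ℕ) : ℝ) - 1) / 3)) *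
            (C * (n : ℝ) ^ (-(4 * (l : ℝ) ^ 2 - 1) / 12)) :=
            mul_le_mul h5 h2 (div_pos hD hb).le (mul_pos hC' (hp _)).le
        _ = _ := by ring

lemma norm_det_PQ (l M : ℕ) :
    ‖(1 + Matrix.of fun i j : Fin M => ((((i : ℕ) + j + 2 * l).choose i : ℕ) : ℂ)).det‖ =
      |(((1 + PQ (2 * l) M).det : ℚ) : ℝ)| := by
  have h1 : (1 + Matrix.of fun i j : Fin M => ((((i : ℕ) + j + 2 * l).choose i : ℕ) : ℂ)) =
      (1 + PQ (2 * l) M).map (algebraMap ℚ ℂ) := by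
    ext i j
    by_cases h : i = j
    · subst h
      simp [PQ]
    · simp [PQ, Matrix.one_apply_ne h]
  have h2 := RingHom.map_det (algebraMap ℚ ℂ) (1 + PQ (2 * l) M)
  rw [h1]
  change ‖((algebraMap ℚ ℂ).mapMatrix (1 + PQ (2 * l) M)).det‖ = _
  rw [← h2]
  have h3 : (algebraMap ℚ ℂ) (1 + PQ (2 * l) M).det =
      (((((1 + PQ (2 * l) M).det : ℚ) : ℝ)) : ℂ) := by
    simp
  rw [h3, Complex.norm_real, Real.norm_eq_abs]

lemma norm_gdet (n : ℕ) {q : ℂ} (hq : q ^ 2 - q + 1 = 0) :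
    ‖Pool.Agent.H51.TA.gdet n q‖ = Pool.Agent.H98.Izer.bR n ^ 2 := by
  have hqn : ‖q‖ = 1 := by
    have h : q ^ 3 = -1 := by linear_combination (q + 1) * hq
    have h2 : ‖q‖ ^ 3 = 1 := by rw [← norm_pow, h, norm_neg, norm_one]
    exact (pow_eq_one_iff_of_nonneg (norm_nonneg q) (by norm_num)).1 h2
  have h2 := Pool.Agent.H98.Izer.det_pascal_q n q hq
  have h3 : Pool.Agent.H51.TA.gdet n q =
      (q ^ n)⁻¹ * (q ^ n * Pool.Agent.H98.Izer.BB n ^ 2) := by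
    rw [← show _ = q ^ n * Pool.Agent.H98.Izer.BB n ^ 2 from h2]
    rfl
  rw [h3, Pool.Agent.H98.Izer.BB_ofReal, norm_mul, norm_mul, norm_inv, norm_pow, hqn, one_pow,
    inv_one, one_mul, one_mul, norm_pow, Complex.norm_real,
    Real.norm_of_nonneg (Pool.Agent.H98.Izer.bR_pos _).le]

/-- JOB F9, second form -/
theorem eval_gdet (l : ℕ) (hl : 1 ≤ l) :
    ∃ c C : ℝ, 0 < c ∧ 0 < C ∧ ∀ n : ℕ, l ≤ n → ∀ q : ℂ, q ^ 2 - q + 1 = 0 →
      c * (n : ℝ) ^ (-(4 * (l : ℝ) ^ 2 - 1) / 12) ≤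
        ‖(1 + Matrix.of fun i j : Fin (2 * n - l) => ((((i : ℕ) + j + 2 * l).choose i : ℕ) : ℂ)).det‖ /
          ‖Pool.Agent.H51.TA.gdet n q‖ ∧
      ‖(1 + Matrix.of fun i j : Fin (2 * n - l) => ((((i : ℕ) + j + 2 * l).choose i : ℕ) : ℂ)).det‖ /
          ‖Pool.Agent.H51.TA.gdet n q‖ ≤
        C * (n : ℝ) ^ (-(4 * (l : ℝ) ^ 2 - 1) / 12) := by
  obtain ⟨c, C, hc, hC, h⟩ := eval_bounds l hl
  refine ⟨c, C, hc, hC, fun n hn q hq => ?_⟩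
  have h1 := h n hn
  rw [norm_gdet n hq, norm_det_PQ]
  have hn0 : (0 : ℝ) < n := by
    have : 0 < n := by omega
    exact_mod_cast this
  have hb : 0 < Pool.Agent.H98.Izer.bR n ^ 2 := pow_pos (Pool.Agent.H98.Izer.bR_pos n) 2
  have hD : 0 < (((1 + PQ (2 * l) (2 * n - l)).det : ℚ) : ℝ) := by
    have h6 := (mul_pos hc (Real.rpow_pos_of_pos hn0 _)).trans_le h1.1
    rw [div_pos_iff_of_pos_right hb] at h6
    exact h6
  rw [abs_of_pos hD]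
  exact h1

end Pool.Agent.H13.Four
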