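import Pool.Agent.H13.Four.Factor
import Pool.Agent.H13.Four.RT
import Pool.Agent.H13.Four.Prod

/-!
# The base case: the two-leg determinant is the number of alternating sign matrices
-/

namespace Pool.Agent.H13.Four

open Finset
open scoped Nat

/-- a product of consecutive terms -/
def win (x : ℚ) (n : ℕ) : ℚ := ∏ t ∈ range n, (x + t)

lemma win_succ (x : ℚ) (n : ℕ) : win x (n + 1) = win x n * (x + n) := by
  unfold win
  rw [prod_range_succ]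

lemma win_succ' (x : ℚ) (n : ℕ) : win x (n + 1) = x * win (x + 1) n := by
  unfold win
  rw [prod_range_succ', mul_comm, Nat.cast_zero, add_zero]
  congr 1
  refine prod_congr rfl fun t _ => ?_
  push_cast
  ring

lemma win_one (x : ℚ) (n : ℕ) : win (x + 1) (n + 1) * x = win x n * ((x + n) * (x + n + 1)) := by
  rw [mul_comm, ← win_succ', win_succ, win_succ]
  push_cast
  ring

lemma win_two (x : ℚ) (n : ℕ) : win (x + 2) (n + 1) * (x * (x + 1)) =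
    win x n * ((x + n) * (x + n + 1) * (x + n + 2)) := by
  have h : win (x + 2) (n + 1) * (x * (x + 1)) = win x (n + 3) := by
    rw [win_succ' x, win_succ' (x + 1), show x + 1 + 1 = x + 2 by ring]
    ring
  rw [h, win_succ, win_succ, win_succ]
  push_cast
  ring

lemma win_pos {x : ℚ} (hx : 0 < x) (n : ℕ) : 0 < win x n :=
  prod_pos fun t _ => by positivity

lemma tau_eq (lam m : ℕ) : tau lam (m + 1) = 1 / 2 * win (2 * lam + 2 * m + 4) (m + 1) *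
    win (lam + 2 * m + 7 / 2) m / (win (m + 1) (m + 1) * win (lam + m + 5 / 2) m) := by
  unfold tau win
  rw [if_neg (by omega), Nat.add_sub_cancel]
  push_cast
  congr 1
  · congr 1
    · congr 1
      refine prod_congr rfl fun t _ => by ring
    · refine prod_congr rfl fun t _ => by ring
  · congr 1
    refine prod_congr rfl fun t _ => by ring

/-- quotient of consecutive pivots -/
def tq (l m : ℚ) : ℚ :=
  (2 * l + 3 * m + 5) * (2 * l + 3 * m + 6) * (2 * l + 3 * m + 7) *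
    ((l + 3 * m + 7 / 2) * (l + 3 * m + 9 / 2) * (l + 3 * m + 11 / 2)) *
    ((m + 1) * (l + m + 5 / 2)) /
  (((2 * l + 2 * m + 4) * (2 * l + 2 * m + 5)) * ((l + 2 * m + 7 / 2) * (l + 2 * m + 9 / 2)) *
    (((2 * m + 2) * (2 * m + 3)) * ((l + 2 * m + 5 / 2) * (l + 2 * m + 7 / 2))))

lemma tau_succ (lam m : ℕ) : tau lam (m + 2) = tau lam (m + 1) * tq lam m := by
  rw [tau_eq, show m + 2 = m + 1 + 1 by ring, tau_eq]
  have h1 := win_two (2 * (lam : ℚ) + 2 * m + 4) (m + 1)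
  have h2 := win_two ((lam : ℚ) + 2 * m + 7 / 2) m
  have h3 := win_one ((m : ℚ) + 1) (m + 1)
  have h4 := win_one ((lam : ℚ) + m + 5 / 2) m
  have e1 : 2 * (lam : ℚ) + 2 * ((m + 1 : ℕ) : ℚ) + 4 = 2 * lam + 2 * m + 4 + 2 := by
    push_cast; ring
  have e2 : (lam : ℚ) + 2 * ((m + 1 : ℕ) : ℚ) + 7 / 2 = lam + 2 * m + 7 / 2 + 2 := by
    push_cast; ring
  have e3 : ((m + 1 : ℕ) : ℚ) + 1 = (m : ℚ) + 1 + 1 := by push_cast; ring
  have e4 : (lam : ℚ) + ((m + 1 : ℕ) : ℚ) + 5 / 2 = lam + m + 5 / 2 + 1 := by push_cast; ring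
  rw [e1, e2, e3, e4]
  have p1 := win_pos (x := 2 * (lam : ℚ) + 2 * m + 4 + 2) (by positivity) (m + 1 + 1)
  have p2 := win_pos (x := (lam : ℚ) + 2 * m + 7 / 2 + 2) (by positivity) (m + 1)
  have p3 := win_pos (x := (m : ℚ) + 1 + 1) (by positivity) (m + 1 + 1)
  have p4 := win_pos (x := (lam : ℚ) + m + 5 / 2 + 1) (by positivity) (m + 1)
  have p5 := win_pos (x := (m : ℚ) + 1) (by positivity) (m + 1)
  have p6 := win_pos (x := (lam : ℚ) + m + 5 / 2) (by positivity) m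
  generalize win (2 * (lam : ℚ) + 2 * m + 4 + 2) (m + 1 + 1) = W1 at *
  generalize win ((lam : ℚ) + 2 * m + 7 / 2 + 2) (m + 1) = W2 at *
  generalize win ((m : ℚ) + 1 + 1) (m + 1 + 1) = W3 at *
  generalize win ((lam : ℚ) + m + 5 / 2 + 1) (m + 1) = W4 at *
  generalize win (2 * (lam : ℚ) + 2 * m + 4) (m + 1) = V1 at *
  generalize win ((lam : ℚ) + 2 * m + 7 / 2) m = V2 at *
  generalize win ((m : ℚ) + 1) (m + 1) = V3 at *
  generalize win ((lam : ℚ) + m + 5 / 2) m = V4 at *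
  have k1 : W1 = V1 * ((2 * (lam : ℚ) + 2 * m + 4 + ((m + 1 : ℕ) : ℚ)) *
    (2 * (lam : ℚ) + 2 * m + 4 + ((m + 1 : ℕ) : ℚ) + 1) *
    (2 * (lam : ℚ) + 2 * m + 4 + ((m + 1 : ℕ) : ℚ) + 2)) /
    ((2 * (lam : ℚ) + 2 * m + 4) * (2 * (lam : ℚ) + 2 * m + 4 + 1)) := by
    rw [eq_div_iff (by positivity)]
    exact h1
  have k2 : W2 = V2 * (((lam : ℚ) + 2 * m + 7 / 2 + m) * ((lam : ℚ) + 2 * m + 7 / 2 + m + 1) *
    ((lam : ℚ) + 2 * m + 7 / 2 + m + 2)) /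
    (((lam : ℚ) + 2 * m + 7 / 2) * ((lam : ℚ) + 2 * m + 7 / 2 + 1)) := by
    rw [eq_div_iff (by positivity)]
    exact h2
  have k3 : W3 = V3 * (((m : ℚ) + 1 + ((m + 1 : ℕ) : ℚ)) * ((m : ℚ) + 1 + ((m + 1 : ℕ) : ℚ) + 1)) /
    ((m : ℚ) + 1) := by
    rw [eq_div_iff (by positivity)]
    exact h3
  have k4 : W4 = V4 * (((lam : ℚ) + m + 5 / 2 + m) * ((lam : ℚ) + m + 5 / 2 + m + 1)) /
    ((lam : ℚ) + m + 5 / 2) := by
    rw [eq_div_iff (by positivity)]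
    exact h4
  rw [k1, k2, k3, k4]
  unfold tq
  push_cast
  field_simp
  ring

/-! ### The product formula -/

/-- the number of alternating sign matrices -/
def aQ (N : ℕ) : ℚ := ∏ j ∈ range N, (((3 * j + 1)! : ℕ) : ℚ) / (((N + j)! : ℕ) : ℚ)

lemma fact_ne (n : ℕ) : (n ! : ℚ) ≠ 0 := by exact_mod_cast Nat.factorial_ne_zero n

lemma aQ_succ (N : ℕ) : aQ (N + 1) = aQ N * ((N ! : ℚ) * ((3 * N + 1)! : ℚ) /
    (((2 * N)! : ℚ) * ((2 * N + 1)! : ℚ))) := by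
  unfold aQ
  rw [prod_div_distrib, prod_div_distrib, prod_range_succ]
  have h1 : (N ! : ℚ) * ∏ j ∈ range (N + 1), (((N + 1 + j)! : ℕ) : ℚ) =
      (∏ j ∈ range N, (((N + j)! : ℕ) : ℚ)) * ((2 * N)! : ℚ) * ((2 * N + 1)! : ℚ) := by
    have h2 : ∏ j ∈ range (N + 1 + 1), (((N + j)! : ℕ) : ℚ) =
        (N ! : ℚ) * ∏ j ∈ range (N + 1), (((N + 1 + j)! : ℕ) : ℚ) := by
      rw [prod_range_succ', mul_comm, add_zero]
      congr 1
      refine prod_congr rfl fun j _ => ?_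
      rw [show N + (j + 1) = N + 1 + j by ring]
    rw [← h2, prod_range_succ, prod_range_succ, show N + N = 2 * N by ring,
      show N + (N + 1) = 2 * N + 1 by ring]
  have h3 : (∏ j ∈ range (N + 1), (((N + 1 + j)! : ℕ) : ℚ)) ≠ 0 :=
    prod_ne_zero_iff.2 fun j _ => fact_ne _
  have h4 : (∏ j ∈ range N, (((N + j)! : ℕ) : ℚ)) ≠ 0 :=
    prod_ne_zero_iff.2 fun j _ => fact_ne _
  have h5 := fact_ne N
  have h6 := fact_ne (2 * N)
  have h7 := fact_ne (2 * N + 1)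
  have h8 := fact_ne (3 * N + 1)
  field_simp
  linear_combination -h1

/-- quotient of the products for `2 n + 2` and `2 n` -/
def rq (n : ℕ) : ℚ := ((2 * n)! : ℚ) * ((6 * n + 1)! : ℚ) /
      (((4 * n)! : ℚ) * ((4 * n + 1)! : ℚ)) * (((2 * n + 1)! : ℚ) * ((6 * n + 4)! : ℚ) /
      (((4 * n + 2)! : ℚ) * ((4 * n + 3)! : ℚ)))

lemma aQ_two (n : ℕ) : aQ (2 * (n + 1)) = aQ (2 * n) * rq n := by
  rw [show 2 * (n + 1) = 2 * n + 1 + 1 by ring, aQ_succ, aQ_succ,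
    show 3 * (2 * n) + 1 = 6 * n + 1 by ring, show 2 * (2 * n) = 4 * n by ring,
    show 3 * (2 * n + 1) + 1 = 6 * n + 4 by ring, show 2 * (2 * n + 1) = 4 * n + 2 by ring]
  unfold rq
  ring

lemma g1 (n : ℕ) : ((n + 1)! : ℚ) = (n + 1) * (n ! : ℚ) := by
  rw [Nat.factorial_succ]; push_cast; ring

lemma g2 (n : ℕ) : ((n + 2)! : ℚ) = (n + 2) * (n + 1) * (n ! : ℚ) := by
  rw [Nat.factorial_succ, Nat.cast_mul, g1]; push_cast; ring

lemma g3 (n : ℕ) : ((n + 3)! : ℚ) = (n + 3) * (n + 2) * (n + 1) * (n ! : ℚ) := by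
  rw [Nat.factorial_succ, Nat.cast_mul, g2]; push_cast; ring

lemma g4 (n : ℕ) : ((n + 4)! : ℚ) = (n + 4) * (n + 3) * (n + 2) * (n + 1) * (n ! : ℚ) := by
  rw [Nat.factorial_succ, Nat.cast_mul, g3]; push_cast; ring

lemma g6 (n : ℕ) : ((n + 6)! : ℚ) = (n + 6) * (n + 5) * (n + 4) * (n + 3) * (n + 2) *
    (n + 1) * (n ! : ℚ) := by
  rw [Nat.factorial_succ, Nat.cast_mul, Nat.factorial_succ, Nat.cast_mul, g4]
  push_cast; ring

/-- `rq n` with all factorials of multiples of `n` -/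
lemma rq_eq (n : ℕ) : rq n = ((2 * n)! : ℚ) ^ 2 * ((6 * n)! : ℚ) ^ 2 / ((4 * n)! : ℚ) ^ 4 *
    ((2 * n + 1) * (6 * n + 1) ^ 2 * (6 * n + 2) * (6 * n + 3) * (6 * n + 4) /
      ((4 * n + 1) ^ 3 * (4 * n + 2) ^ 2 * (4 * n + 3))) := by
  unfold rq
  rw [g1 (2 * n), g1 (6 * n), g1 (4 * n), g2 (4 * n), g3 (4 * n), g4 (6 * n)]
  have h2 := fact_ne (2 * n)
  have h4 := fact_ne (4 * n)
  have h6 := fact_ne (6 * n)
  push_cast
  field_simp

/-- the rational factor of `rq` -/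
def rr (x : ℚ) : ℚ := (2 * x + 1) * (6 * x + 1) ^ 2 * (6 * x + 2) * (6 * x + 3) * (6 * x + 4) /
      ((4 * x + 1) ^ 3 * (4 * x + 2) ^ 2 * (4 * x + 3))

/-- the quotient of consecutive values of the main factor of `rq` -/
def rm (x : ℚ) : ℚ := ((2 * x + 2) * (2 * x + 1)) ^ 2 *
    ((6 * x + 6) * (6 * x + 5) * (6 * x + 4) * (6 * x + 3) * (6 * x + 2) * (6 * x + 1)) ^ 2 /
    ((4 * x + 4) * (4 * x + 3) * (4 * x + 2) * (4 * x + 1)) ^ 4

lemma rq_succ (n : ℕ) : rq (n + 1) = rq n * (rm n * rr (n + 1) / rr n) := by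
  rw [rq_eq, rq_eq, show 2 * (n + 1) = 2 * n + 2 by ring, show 6 * (n + 1) = 6 * n + 6 by ring,
    show 4 * (n + 1) = 4 * n + 4 by ring, g2 (2 * n), g4 (4 * n), g6 (6 * n)]
  have h2 := fact_ne (2 * n)
  have h4 := fact_ne (4 * n)
  have h6 := fact_ne (6 * n)
  unfold rm rr
  push_cast
  field_simp

lemma rat_id (x : ℚ) (hx : 0 ≤ x) : rm (x + 1) * rr (x + 1 + 1) / rr (x + 1) =
    tq 1 x * tq 0 x * ((12 * (x + 2) + 2) / (3 * (x + 2) + 1)) *
      ((3 * (x + 1) + 1) / (12 * (x + 1) + 2)) := by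
  unfold rm rr tq
  field_simp
  ring

lemma rq_tau (m : ℕ) : rq (m + 1) = tau 1 (m + 1) * tau 0 (m + 1) *
    ((12 * ((m : ℚ) + 1) + 2) / (3 * ((m : ℚ) + 1) + 1)) := by
  induction m with
  | zero =>
    rw [tau_eq, tau_eq]
    simp only [rq, win, Nat.factorial, Finset.prod_range_succ, Finset.prod_range_zero]
    norm_num
  | succ m ih =>
    rw [rq_succ, ih, tau_succ 1, tau_succ 0]
    push_cast
    rw [rat_id m (by positivity), show (m : ℚ) + 1 + 1 = m + 2 by ring]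
    field_simp

/-- JOB F6 -/
theorem base (n : ℕ) (hn : 1 ≤ n) :
    (1 + PQ 2 (2 * n - 1)).det =
      ∏ j ∈ range (2 * n), (((3 * j + 1).factorial : ℕ) : ℚ) / (((2 * n + j).factorial : ℕ) : ℚ) := by
  obtain ⟨m, rfl⟩ := Nat.exists_eq_add_of_le' hn
  have h1 := factor 1 (2 * (m + 1) - 1)
  rw [show (2 * (m + 1) - 1 + 1) / 2 = m + 1 by omega, show (2 * (m + 1) - 1) / 2 = m by omega,
    show (2 * (m + 1) - 1) % 2 = 1 by omega, pow_one, det_TQ] at h1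
  change (1 + PQ 2 (2 * (m + 1) - 1)).det = _ at h1
  have h2 := rt 0 m
  rw [det_TQ] at h2
  have h3 : (∏ i ∈ range m, (3 * (i : ℚ) + 2 * (0 : ℕ) + 4)) ≠ 0 :=
    prod_ne_zero_iff.2 fun i _ => by positivity
  have h4 : (RQ 1 m).det = ((∏ j ∈ range m, (12 * (j : ℚ) + 4 * (0 : ℕ) + 14)) *
      ∏ k ∈ range (m + 1), tau 0 k) / (∏ i ∈ range m, (3 * (i : ℚ) + 2 * (0 : ℕ) + 4)) := by
    rw [eq_div_iff h3, mul_comm]
    exact h2
  rw [h1, h4]
  change _ = aQ (2 * (m + 1))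
  clear h1 h2 h3 h4 hn
  induction m with
  | zero =>
    simp only [aQ, Nat.factorial, Finset.prod_range_succ, Finset.prod_range_zero, tau]
    norm_num
  | succ m ih =>
    rw [aQ_two (m + 1), ← ih, rq_tau, prod_range_succ (fun k => tau 1 k),
      prod_range_succ (fun k => tau 0 k),
      prod_range_succ (fun j : ℕ => 12 * (j : ℚ) + 4 * ((0 : ℕ) : ℚ) + 14) m,
      prod_range_succ (fun i : ℕ => 3 * (i : ℚ) + 2 * ((0 : ℕ) : ℚ) + 4) m]
    have h3 : (∏ i ∈ range m, (3 * (i : ℚ) + 2 * (0 : ℕ) + 4)) ≠ 0 :=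
      prod_ne_zero_iff.2 fun i _ => by positivity
    push_cast at h3 ⊢
    generalize (∏ x ∈ range m, (3 * (x : ℚ) + 2 * 0 + 4)) = P at *
    field_simp
    ring

end Pool.Agent.H13.Four
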