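import Pool.Agent.H13.Four.Defs

/-!
# Orthogonality: the row vectors `ev` against the columns of `TQ`

Zeilberger certificate of order two in `j`.
-/

set_option autoImplicit false

namespace Pool.Agent.H13.Four

open Finset

namespace Orth

/-- inverse factorial on the integers -/
def fi (n : ℤ) : ℚ := if n < 0 then 0 else 1 / (n.toNat.factorial : ℚ)

lemma fi_sub_one (n : ℤ) : fi (n - 1) = n * fi n := by
  unfold fi
  rcases lt_trichotomy n 0 with h | h | h
  · rw [if_pos (by omega), if_pos h, mul_zero]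
  · subst h; simp
  · rw [if_neg (by omega), if_neg (by omega)]
    obtain ⟨m, rfl⟩ : ∃ m : ℕ, n = m + 1 := ⟨(n - 1).toNat, by omega⟩
    have e1 : ((m : ℤ) + 1 - 1).toNat = m := by omega
    have e2 : ((m : ℤ) + 1).toNat = m + 1 := by omega
    rw [e1, e2, Nat.factorial_succ]
    have h1 : (m.factorial : ℚ) ≠ 0 := by exact_mod_cast m.factorial_ne_zero
    push_cast
    field_simp

lemma fi_sub_two (n : ℤ) : fi (n - 2) = (n - 1) * n * fi n := by
  have h1 := fi_sub_one n
  have h2 := fi_sub_one (n - 1)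
  rw [show n - 1 - 1 = n - 2 by ring] at h2
  rw [h2, h1]
  push_cast
  ring

lemma fi_sub_four (n : ℤ) : fi (n - 4) = (n - 3) * (n - 2) * (n - 1) * n * fi n := by
  have h1 := fi_sub_two n
  have h2 := fi_sub_two (n - 2)
  rw [show n - 2 - 2 = n - 4 by ring] at h2
  rw [h2, h1]
  push_cast
  ring

lemma TT_eq (lam i j : ℕ) : TT lam i j =
    ((i + j + lam).factorial : ℚ) * fi (2 * (j : ℤ) - i) * fi (2 * (i : ℤ) - j + lam) := by
  unfold TT
  by_cases h : i ≤ 2 * j
  · rw [if_pos h]
    by_cases h2 : 2 * j - i ≤ i + j + lam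
    · rw [Nat.cast_choose ℚ h2]
      unfold fi
      rw [if_neg (by omega), if_neg (by omega)]
      have e1 : (2 * (j : ℤ) - i).toNat = 2 * j - i := by omega
      have e2 : (2 * (i : ℤ) - j + lam).toNat = i + j + lam - (2 * j - i) := by omega
      rw [e1, e2]
      have h3 : ((2 * j - i).factorial : ℚ) ≠ 0 := by
        exact_mod_cast (2 * j - i).factorial_ne_zero
      have h4 : ((i + j + lam - (2 * j - i)).factorial : ℚ) ≠ 0 := by
        exact_mod_cast (i + j + lam - (2 * j - i)).factorial_ne_zero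
      field_simp
    · rw [Nat.choose_eq_zero_of_lt (by omega)]
      have : fi (2 * (i : ℤ) - j + lam) = 0 := by
        unfold fi; rw [if_pos (by omega)]
      rw [this]; simp
  · rw [if_neg h]
    have : fi (2 * (j : ℤ) - i) = 0 := by
      unfold fi; rw [if_pos (by omega)]
    rw [this]; simp

lemma ev_self (lam k : ℕ) : ev lam k k = 1 := by
  unfold ev; simp

lemma ev_gt {lam k i : ℕ} (h : k < i) : ev lam k i = 0 := by
  unfold ev; rw [if_pos h]

lemma ev_zero {lam k : ℕ} (h : 1 ≤ k) : ev lam k 0 = 0 := by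
  unfold ev
  rw [if_neg (by omega)]
  apply prod_eq_zero (i := 0) (mem_Ico.2 ⟨le_rfl, by omega⟩)
  simp

lemma ev_rel (lam k i : ℕ) :
    2 * ((k : ℚ) - i) * (2 * k + 2 * i + 2 * lam + 1) * (i + 1 + lam) * ev lam k i =
      -((i : ℚ) * (2 * k - i - 1) * (2 * k + 2 * lam + i + 2)) * ev lam k (i + 1) := by
  rcases lt_trichotomy i k with h | h | h
  · have h1 : ev lam k i = (-((i : ℚ) * (2 * k - i - 1) * (2 * k + 2 * lam + i + 2)) /
        (2 * (k - i) * (2 * k + 2 * i + 2 * lam + 1) * (i + 1 + lam))) * ev lam k (i + 1) := by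
      unfold ev
      rw [if_neg (by omega), if_neg (by omega), prod_eq_prod_Ico_succ_bot h]
    have h2 : (k : ℚ) - i ≠ 0 := by
      have : (i : ℚ) < k := by exact_mod_cast h
      linarith
    have h3 : (2 * (k : ℚ) + 2 * i + 2 * lam + 1) ≠ 0 := by positivity
    have h4 : ((i : ℚ) + 1 + lam) ≠ 0 := by positivity
    rw [h1]
    field_simp
  · subst h
    rw [ev_gt (Nat.lt_succ_self i)]
    ring
  · rw [ev_gt h, ev_gt (by omega : k < i + 1)]
    ring

/-- the telescoping certificate -/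
def G (lam k j i : ℕ) : ℚ :=
  ev lam k i * ((i : ℚ) - 1) * (2 * k - i) * (2 * k + 2 * lam + i + 1) *
    (((6 * (lam : ℚ) - 2) * j + 2 * lam ^ 2 + 10 * lam - 4) + (9 * j + 3 * lam + 16) * i) *
    ((i + j + lam).factorial : ℚ) * fi (2 * (j : ℤ) + 4 - i) * fi (2 * (i : ℤ) - j + lam - 2)

/-- first coefficient -/
def a0 (lam k j : ℕ) : ℚ := ((j : ℚ) + lam + 2) * (j - 2 * k - lam) * (j + 2 * k + lam + 1)

/-- second coefficient -/
def a1 (lam k j : ℕ) : ℚ :=
  24 + 52 * (j : ℚ) + 36 * j ^ 2 + 8 * j ^ 3 + lam * (14 * j + 8 * j ^ 2) -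
    lam ^ 2 * (14 + 4 * j) - 4 * lam ^ 3 -
    k * (22 + 52 * lam + 16 * lam ^ 2 + 10 * j + 20 * j * lam) -
    k ^ 2 * (44 + 16 * lam + 20 * j)

/-- third coefficient -/
def a2 (lam k j : ℕ) : ℚ :=
  -4 * (2 * (j : ℚ) + 3) * (k - j - 2) * (2 * k + 2 * j + 2 * lam + 5)

lemma cert (lam k j i : ℕ) :
    a0 lam k j * (ev lam k i * TT lam i j) + a1 lam k j * (ev lam k i * TT lam i (j + 1)) +
      a2 lam k j * (ev lam k i * TT lam i (j + 2)) = G lam k j (i + 1) - G lam k j i := by
  have h1 := ev_rel lam k i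
  rw [TT_eq, TT_eq, TT_eq]
  unfold G a0 a1 a2
  have f0 := fi_sub_four (2 * (j : ℤ) + 4 - i)
  have f1 := fi_sub_two (2 * (j : ℤ) + 4 - i)
  have f3 := fi_sub_one (2 * (j : ℤ) + 4 - i)
  have g1 := fi_sub_one (2 * (i : ℤ) - j + lam)
  have g2 := fi_sub_two (2 * (i : ℤ) - j + lam)
  rw [show 2 * (j : ℤ) + 4 - i - 4 = 2 * (j : ℤ) - i by ring] at f0
  rw [show 2 * (j : ℤ) + 4 - i - 2 = 2 * ((j + 1 : ℕ) : ℤ) - i by push_cast; ring] at f1
  rw [show 2 * (j : ℤ) + 4 - i - 1 = 2 * (j : ℤ) + 4 - ((i + 1 : ℕ) : ℤ) by push_cast; ring] at f3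
  rw [show 2 * (i : ℤ) - j + lam - 1 = 2 * (i : ℤ) - ((j + 1 : ℕ) : ℤ) + lam by
    push_cast; ring] at g1
  have g2' : fi (2 * (i : ℤ) - ((j + 2 : ℕ) : ℤ) + lam) = fi (2 * (i : ℤ) - j + lam - 2) := by
    rw [show 2 * (i : ℤ) - ((j + 2 : ℕ) : ℤ) + lam = 2 * (i : ℤ) - j + lam - 2 by
      push_cast; ring]
  have g3 : fi (2 * ((i + 1 : ℕ) : ℤ) - j + lam - 2) = fi (2 * (i : ℤ) - j + lam) := by
    rw [show 2 * ((i + 1 : ℕ) : ℤ) - j + lam - 2 = 2 * (i : ℤ) - j + lam by push_cast; ring]
  have f2 : fi (2 * ((j + 2 : ℕ) : ℤ) - i) = fi (2 * (j : ℤ) + 4 - i) := by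
    rw [show 2 * ((j + 2 : ℕ) : ℤ) - i = 2 * (j : ℤ) + 4 - i by push_cast; ring]
  have c1 : ((i + (j + 1) + lam).factorial : ℚ) = (i + j + lam + 1) * (i + j + lam).factorial := by
    rw [show i + (j + 1) + lam = (i + j + lam) + 1 by ring, Nat.factorial_succ]
    push_cast; ring
  have c2 : ((i + (j + 2) + lam).factorial : ℚ) =
      (i + j + lam + 2) * ((i + j + lam + 1) * (i + j + lam).factorial) := by
    rw [show i + (j + 2) + lam = (i + j + lam) + 1 + 1 by ring, Nat.factorial_succ,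
      Nat.factorial_succ]
    push_cast; ring
  have c3 : ((i + 1 + j + lam).factorial : ℚ) = (i + j + lam + 1) * (i + j + lam).factorial := by
    rw [show i + 1 + j + lam = (i + j + lam) + 1 by ring, Nat.factorial_succ]
    push_cast; ring
  rw [f0, f1, f2, f3, g1, g2', g2, g3, c1, c2, c3]
  set A := fi (2 * (j : ℤ) + 4 - i)
  set B := fi (2 * (i : ℤ) - j + lam)
  set W : ℚ := ((i + j + lam).factorial : ℚ)
  push_cast
  linear_combination (-((((6 * (lam : ℚ) - 2) * j + 2 * lam ^ 2 + 10 * lam - 4) +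
    (9 * j + 3 * lam + 16) * (i + 1)) * ((i + j + lam + 1) * W) * ((2 * j + 4 - i) * A) * B)) * h1

lemma rec (lam k j : ℕ) (hk : 1 ≤ k) :
    a0 lam k j * (∑ i ∈ range (k + 1), ev lam k i * TT lam i j) +
      a1 lam k j * (∑ i ∈ range (k + 1), ev lam k i * TT lam i (j + 1)) +
      a2 lam k j * (∑ i ∈ range (k + 1), ev lam k i * TT lam i (j + 2)) = 0 := by
  rw [mul_sum, mul_sum, mul_sum, ← sum_add_distrib, ← sum_add_distrib]
  rw [sum_congr rfl fun i _ => cert lam k j i, sum_range_sub]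
  unfold G
  rw [ev_zero hk, ev_gt (Nat.lt_succ_self k)]
  ring

end Orth

open Orth

theorem orth (lam k j : ℕ) (h : j < k) :
    ∑ i ∈ range (k + 1), ev lam k i * TT lam i j = 0 := by
  have hk : 1 ≤ k := by omega
  induction j using Nat.strong_induction_on with
  | _ j ih =>
    match j, ih, h with
    | 0, _, _ =>
      apply sum_eq_zero
      intro i _
      rcases Nat.eq_zero_or_pos i with hi | hi
      · subst hi; rw [ev_zero hk, zero_mul]
      · have : TT lam i 0 = 0 := by unfold TT; rw [if_neg (by omega)]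
        rw [this, mul_zero]
    | 1, _, h =>
      have hsub : range 3 ⊆ range (k + 1) := by
        intro x hx; rw [mem_range] at hx ⊢; omega
      rw [← sum_subset hsub (fun i _ hi => by
        have : TT lam i 1 = 0 := by
          unfold TT; rw [if_neg]; rw [mem_range] at hi; omega
        rw [this, mul_zero])]
      rw [sum_range_succ, sum_range_succ, sum_range_succ, sum_range_zero, ev_zero hk]
      have t1 : TT lam 1 1 = lam + 2 := by
        unfold TT; rw [if_pos (by norm_num)]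
        rw [show 2 * 1 - 1 = 1 from rfl, Nat.choose_one_right]
        push_cast; ring
      have t2 : TT lam 2 1 = 1 := by
        unfold TT; rw [if_pos (by norm_num)]
        simp
      rw [t1, t2]
      have h1 := ev_rel lam k 1
      have h2 : (k : ℚ) - 1 ≠ 0 := by
        have : (1 : ℚ) < k := by exact_mod_cast h
        linarith
      have h3 : (2 * (k : ℚ) + 2 * lam + 3) ≠ 0 := by positivity
      have h4 : 2 * ((k : ℚ) - 1) * (2 * (k : ℚ) + 2 * lam + 3) *
          (ev lam k 1 * (lam + 2) + ev lam k 2) = 0 := by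
        push_cast at h1
        linear_combination h1
      have h5 := (mul_eq_zero.mp h4).resolve_left
        (mul_ne_zero (mul_ne_zero two_ne_zero h2) h3)
      linear_combination h5
    | (j + 2), ih, h =>
      have r := rec lam k j hk
      rw [ih j (by omega) (by omega), ih (j + 1) (by omega) (by omega), mul_zero, mul_zero,
        zero_add, zero_add] at r
      refine (mul_eq_zero.mp r).resolve_left ?_
      unfold a2
      have h1 : ((k : ℚ) - j - 2) ≠ 0 := by
        have : ((j + 2 : ℕ) : ℚ) < k := by exact_mod_cast h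
        push_cast at this
        linarith
      have h2 : (2 * (j : ℚ) + 3) ≠ 0 := by positivity
      have h3 : (2 * (k : ℚ) + 2 * j + 2 * lam + 5) ≠ 0 := by positivity
      exact mul_ne_zero (mul_ne_zero (mul_ne_zero (by norm_num) h2) h1) h3

end Pool.Agent.H13.Four
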