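import Mathlib

/-!
# Job F7: the ratio test for power growth
-/

namespace Pool.Agent.H13.Four

open Finset

/-- `|log (1 + r) - r| ≤ 2 r ^ 2` for `|r| ≤ 1/2` -/
lemma abs_log_one_add_sub_le {r : ℝ} (hr : |r| ≤ 1 / 2) : |Real.log (1 + r) - r| ≤ 2 * r ^ 2 := by
  have h := Real.abs_log_sub_add_sum_range_le (x := -r) (by rw [abs_neg]; linarith) 1
  simp only [range_one, sum_singleton, zero_add, pow_one, Nat.cast_zero, div_one, sub_neg_eq_add,
    abs_neg] at h
  have h1 : |Real.log (1 + r) - r| ≤ |r| ^ (1 + 1) / (1 - |r|) := by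
    have : Real.log (1 + r) - r = -r + Real.log (1 + r) := by ring
    rw [this]; exact h
  refine h1.trans ?_
  have h2 : |r| ^ (1 + 1) = r ^ 2 := by norm_num
  rw [h2, div_le_iff₀ (by linarith)]
  nlinarith [sq_nonneg r]

/-- the increments of `log x n - g log n` are summable -/
lemma incr_bound {r g K : ℝ} {n : ℕ} (hn : 1 ≤ n) (h : |r - g / n| ≤ K / (n : ℝ) ^ 2)
    (hbig : 2 * (|g| + K) ≤ n) :
    |Real.log (1 + r) - g * Real.log (1 + 1 / (n : ℝ))| ≤
      (2 * (|g| + K) ^ 2 + K + 2 * |g|) / (n : ℝ) ^ 2 := by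
  have hn' : (1 : ℝ) ≤ n := by exact_mod_cast hn
  have hn0 : (0 : ℝ) < n := by linarith
  have hK : 0 ≤ K := by
    have h1 := (abs_nonneg _).trans h
    have h2 : (0 : ℝ) < (n : ℝ) ^ 2 := by positivity
    by_contra h3
    push Not at h3
    have : K / (n : ℝ) ^ 2 < 0 := div_neg_of_neg_of_pos h3 h2
    linarith
  have hKn : K / (n : ℝ) ^ 2 ≤ K / n := by
    apply div_le_div_of_nonneg_left hK hn0
    nlinarith
  have hr : |r| ≤ (|g| + K) / n := by
    have h1 : |r| ≤ |r - g / n| + |g / n| := by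
      have := abs_add_le (r - g / n) (g / n)
      simpa using this
    have h2 : |g / n| = |g| / n := by rw [abs_div, abs_of_pos hn0]
    rw [h2] at h1
    calc |r| ≤ K / n + |g| / n := by linarith
      _ = (|g| + K) / n := by ring
  have hr2 : |r| ≤ 1 / 2 := by
    refine hr.trans ?_
    rw [div_le_iff₀ hn0]; linarith
  have hl1 := abs_log_one_add_sub_le hr2
  have hrsq : r ^ 2 ≤ (|g| + K) ^ 2 / (n : ℝ) ^ 2 := by
    rw [← div_pow, ← sq_abs r]
    exact pow_le_pow_left₀ (abs_nonneg _) hr 2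
  have hone : |Real.log (1 + 1 / (n : ℝ)) - 1 / n| ≤ 2 * (1 / (n : ℝ)) ^ 2 := by
    rcases eq_or_lt_of_le hn with h1 | h1
    · -- n = 1
      subst h1
      simp only [Nat.cast_one, div_one, one_pow, mul_one]
      have h2 : 0 < Real.log 2 := Real.log_pos (by norm_num)
      have h3 := Real.log_two_lt_d9
      rw [abs_le]
      constructor <;> norm_num at * <;> linarith
    · apply abs_log_one_add_sub_le
      rw [abs_of_pos (by positivity)]
      have : (2 : ℝ) ≤ n := by exact_mod_cast h1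
      rw [div_le_div_iff₀ hn0 (by norm_num)]
      linarith
  have key : Real.log (1 + r) - g * Real.log (1 + 1 / (n : ℝ)) =
      (Real.log (1 + r) - r) + (r - g / n) - g * (Real.log (1 + 1 / (n : ℝ)) - 1 / n) := by
    ring
  rw [key]
  have e1 : |g * (Real.log (1 + 1 / (n : ℝ)) - 1 / n)| ≤ |g| * (2 * (1 / (n : ℝ)) ^ 2) := by
    rw [abs_mul]
    exact mul_le_mul_of_nonneg_left hone (abs_nonneg _)
  calc |(Real.log (1 + r) - r) + (r - g / n) - g * (Real.log (1 + 1 / (n : ℝ)) - 1 / n)|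
      ≤ |(Real.log (1 + r) - r) + (r - g / n)| + |g * (Real.log (1 + 1 / (n : ℝ)) - 1 / n)| :=
        abs_sub _ _
    _ ≤ |Real.log (1 + r) - r| + |r - g / n| + |g| * (2 * (1 / (n : ℝ)) ^ 2) := by
        gcongr
        exact abs_add_le _ _
    _ ≤ 2 * ((|g| + K) ^ 2 / (n : ℝ) ^ 2) + K / (n : ℝ) ^ 2 + |g| * (2 * (1 / (n : ℝ)) ^ 2) := by
        gcongr
        linarith
    _ = (2 * (|g| + K) ^ 2 + K + 2 * |g|) / (n : ℝ) ^ 2 := by
        field_simp

/-- standard lemma on ratios -/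
theorem power_bounds (x : ℕ → ℝ) (g K : ℝ) (hx : ∀ n, 1 ≤ n → 0 < x n)
    (h : ∀ n : ℕ, 1 ≤ n → |x (n + 1) / x n - 1 - g / n| ≤ K / (n : ℝ) ^ 2) :
    ∃ c C : ℝ, 0 < c ∧ 0 < C ∧ ∀ n : ℕ, 1 ≤ n → c * (n : ℝ) ^ g ≤ x n ∧ x n ≤ C * (n : ℝ) ^ g := by
  obtain ⟨N0, hN0⟩ := exists_nat_ge (2 * (|g| + K))
  set N := max N0 1 with hN
  have hN1 : 1 ≤ N := le_max_right _ _
  have hNbig : 2 * (|g| + K) ≤ N := hN0.trans (by exact_mod_cast le_max_left _ _)
  have hK : 0 ≤ K := by
    have h1 := (abs_nonneg _).trans (h 1 le_rfl)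
    simpa using h1
  set D := 2 * (|g| + K) ^ 2 + K + 2 * |g| with hD
  have hD0 : 0 ≤ D := by positivity
  set y : ℕ → ℝ := fun n => Real.log (x n) - g * Real.log n with hy
  have hstep : ∀ n, N ≤ n → |y (n + 1) - y n| ≤ D / (n : ℝ) ^ 2 := by
    intro n hn
    have hn1 : 1 ≤ n := hN1.trans hn
    have hn0 : (0 : ℝ) < n := by exact_mod_cast hn1
    have hxn := hx n hn1
    have hxn1 := hx (n + 1) (by omega)
    have h1 := incr_bound (r := x (n + 1) / x n - 1) hn1 (h n hn1)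
      (hNbig.trans (by exact_mod_cast hn))
    have e1 : 1 + (x (n + 1) / x n - 1) = x (n + 1) / x n := by ring
    have e2 : 1 + 1 / (n : ℝ) = ((n + 1 : ℕ) : ℝ) / n := by
      push_cast; field_simp
    rw [e1, e2, Real.log_div hxn1.ne' hxn.ne', Real.log_div (by positivity) hn0.ne'] at h1
    have e3 : y (n + 1) - y n =
        Real.log (x (n + 1)) - Real.log (x n) - g * (Real.log ((n + 1 : ℕ) : ℝ) - Real.log n) := by
      simp only [hy]; ring
    rw [e3]
    exact h1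
  have htel : ∀ k, |y (N + k) - y N| ≤ 2 * D * (1 / N - 1 / ((N + k : ℕ) : ℝ)) := by
    intro k
    have hN0' : (0 : ℝ) < N := by exact_mod_cast hN1
    induction k with
    | zero => simp
    | succ k ih =>
      have hs := hstep (N + k) (by omega)
      have hp : (0 : ℝ) < ((N + k : ℕ) : ℝ) := by
        have : 0 < N + k := by omega
        exact_mod_cast this
      have hp1 : (1 : ℝ) ≤ ((N + k : ℕ) : ℝ) := by
        have : 1 ≤ N + k := by omega
        exact_mod_cast this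
      have e : D / ((N + k : ℕ) : ℝ) ^ 2 ≤
          2 * D * (1 / ((N + k : ℕ) : ℝ) - 1 / ((N + (k + 1) : ℕ) : ℝ)) := by
        have e1 : ((N + (k + 1) : ℕ) : ℝ) = ((N + k : ℕ) : ℝ) + 1 := by push_cast; ring
        rw [e1]
        set p := ((N + k : ℕ) : ℝ)
        have e2 : 2 * D * (1 / p - 1 / (p + 1)) - D / p ^ 2 = D * (p - 1) / (p ^ 2 * (p + 1)) := by
          field_simp
          ring
        have e3 : 0 ≤ D * (p - 1) / (p ^ 2 * (p + 1)) := by
          apply div_nonneg (mul_nonneg hD0 (by linarith)) (by positivity)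
        linarith
      calc |y (N + (k + 1)) - y N| = |(y (N + k + 1) - y (N + k)) + (y (N + k) - y N)| := by
            congr 1; rw [← add_assoc]; ring
        _ ≤ |y (N + k + 1) - y (N + k)| + |y (N + k) - y N| := abs_add_le _ _
        _ ≤ 2 * D * (1 / ((N + k : ℕ) : ℝ) - 1 / ((N + (k + 1) : ℕ) : ℝ)) +
              2 * D * (1 / N - 1 / ((N + k : ℕ) : ℝ)) := by linarith
        _ = _ := by ring
  have hyb : ∀ n, N ≤ n → |y n - y N| ≤ 2 * D := by
    intro n hn
    obtain ⟨k, rfl⟩ := Nat.exists_eq_add_of_le hn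
    refine (htel k).trans ?_
    have hN0' : (1 : ℝ) ≤ N := by exact_mod_cast hN1
    have h1 : 1 / (N : ℝ) ≤ 1 := by
      rw [div_le_one (by linarith)]; exact hN0'
    have h2 : 0 ≤ 1 / ((N + k : ℕ) : ℝ) := by positivity
    nlinarith
  -- the quotient
  set u : ℕ → ℝ := fun n => x n / (n : ℝ) ^ g with hu
  have hpow : ∀ n : ℕ, 1 ≤ n → 0 < (n : ℝ) ^ g := fun n hn =>
    Real.rpow_pos_of_pos (by exact_mod_cast hn) g
  have hupos : ∀ n, 1 ≤ n → 0 < u n := fun n hn => div_pos (hx n hn) (hpow n hn)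
  have hlog : ∀ n, 1 ≤ n → Real.log (u n) = y n := by
    intro n hn
    simp only [hu, hy]
    rw [Real.log_div (hx n hn).ne' (hpow n hn).ne', Real.log_rpow (by exact_mod_cast hn)]
  obtain ⟨a, haN, ha⟩ := Finset.exists_min_image (Icc 1 N) u ⟨1, by simp [hN1]⟩
  obtain ⟨b, hbN, hb⟩ := Finset.exists_max_image (Icc 1 N) u ⟨1, by simp [hN1]⟩
  have ha1 : 1 ≤ a := (mem_Icc.1 haN).1
  have hb1 : 1 ≤ b := (mem_Icc.1 hbN).1
  refine ⟨min (u a) (Real.exp (y N - 2 * D)), max (u b) (Real.exp (y N + 2 * D)),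
    lt_min (hupos a ha1) (Real.exp_pos _), lt_of_lt_of_le (hupos b hb1) (le_max_left _ _), ?_⟩
  intro n hn
  have hxu : x n = u n * (n : ℝ) ^ g := by
    simp only [hu]; rw [div_mul_cancel₀ _ (hpow n hn).ne']
  have hun : min (u a) (Real.exp (y N - 2 * D)) ≤ u n ∧
      u n ≤ max (u b) (Real.exp (y N + 2 * D)) := by
    rcases le_or_gt n N with h1 | h1
    · exact ⟨(min_le_left _ _).trans (ha n (mem_Icc.2 ⟨hn, h1⟩)),
        (hb n (mem_Icc.2 ⟨hn, h1⟩)).trans (le_max_left _ _)⟩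
    · have h2 := abs_le.1 (hyb n h1.le)
      have h3 : u n = Real.exp (y n) := by
        rw [← hlog n hn, Real.exp_log (hupos n hn)]
      rw [h3]
      exact ⟨(min_le_right _ _).trans (Real.exp_le_exp.2 (by linarith)),
        (Real.exp_le_exp.2 (by linarith)).trans (le_max_right _ _)⟩
  rw [hxu]
  exact ⟨mul_le_mul_of_nonneg_right hun.1 (hpow n hn).le,
    mul_le_mul_of_nonneg_right hun.2 (hpow n hn).le⟩

end Pool.Agent.H13.Four
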