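import Pool.Agent.H13.Four.Defs
import Pool.Agent.H13.Four.Power

/-!
# Job F8: the step from `l - 1` to `l`

`step_of` takes the statements of the jobs F1, F2, F5 as hypotheses.
-/

namespace Pool.Agent.H13.Four

open Finset

/-- the statement of F1 -/
def FactorHyp : Prop := ∀ lam M : ℕ, (1 + PQ (2 * lam) M).det =
      2 ^ (M % 2) * (TQ lam ((M + 1) / 2)).det * (RQ lam (M / 2)).det

/-- the statement of F2 -/
def RTHyp : Prop := ∀ lam m : ℕ,
    (∏ i ∈ range m, (3 * (i : ℚ) + 2 * lam + 4)) * (RQ (lam + 1) m).det =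
      (∏ j ∈ range m, (12 * (j : ℚ) + 4 * lam + 14)) * (TQ lam (m + 1)).det

/-- the statement of F5, first part -/
def DetHyp : Prop := ∀ lam m : ℕ, (TQ lam m).det = ∏ k ∈ range m, tau lam k

/-- the statement of F5, second part -/
def TauRatioHyp : Prop := ∀ lam k : ℕ,
    tau (lam + 2) k * (((k : ℚ) + lam + 2) * (6 * k + 2 * lam + 5)) =
      tau lam (k + 1) * ((2 * k + 1) * (3 * k + 2 * lam + 5))

/-- the statement of F5, third part -/
def TauPosHyp : Prop := ∀ lam k : ℕ, 0 < tau lam k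

/-- the determinant -/
def FD (l M : ℕ) : ℚ := (1 + PQ (2 * l) M).det

/-- the four products -/
def pA (lam m : ℕ) : ℚ := ∏ i ∈ range m, (3 * (i : ℚ) + 2 * lam + 6)
def pB (lam m : ℕ) : ℚ := ∏ i ∈ range m, (12 * (i : ℚ) + 4 * lam + 18)
def pA' (lam m : ℕ) : ℚ := ∏ i ∈ range m, (3 * (i : ℚ) + 2 * lam + 4)
def pB' (lam m : ℕ) : ℚ := ∏ i ∈ range m, (12 * (i : ℚ) + 4 * lam + 14)

lemma pA_pos (lam m : ℕ) : 0 < pA lam m := prod_pos fun i _ => by positivity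
lemma pB_pos (lam m : ℕ) : 0 < pB lam m := prod_pos fun i _ => by positivity
lemma pA'_pos (lam m : ℕ) : 0 < pA' lam m := prod_pos fun i _ => by positivity
lemma pB'_pos (lam m : ℕ) : 0 < pB' lam m := prod_pos fun i _ => by positivity

/-- the sequence whose power growth is studied -/
def vv (lam k : ℕ) : ℚ :=
  (TQ (lam + 2) k).det / (TQ lam (k + 1)).det * (pB lam k * pA' lam k / (pA lam k * pB' lam k))

section

variable (h1 : FactorHyp) (h2 : RTHyp) (h3 : DetHyp) (h4 : TauRatioHyp) (h5 : TauPosHyp)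

include h3 h5 in
lemma detT_pos (lam m : ℕ) : 0 < (TQ lam m).det := by
  rw [h3]
  exact prod_pos fun k _ => h5 lam k

include h2 in
lemma R_two (lam m : ℕ) : (RQ (lam + 2) m).det = pB lam m / pA lam m * (TQ (lam + 1) (m + 1)).det := by
  have h := h2 (lam + 1) m
  have e1 : (∏ i ∈ range m, (3 * (i : ℚ) + 2 * ((lam + 1 : ℕ) : ℚ) + 4)) = pA lam m := by
    unfold pA
    refine prod_congr rfl fun i _ => ?_
    push_cast; ring
  have e2 : (∏ i ∈ range m, (12 * (i : ℚ) + 4 * ((lam + 1 : ℕ) : ℚ) + 14)) = pB lam m := by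
    unfold pB
    refine prod_congr rfl fun i _ => ?_
    push_cast; ring
  rw [e1, e2] at h
  have h' : pA lam m * (RQ (lam + 2) m).det = pB lam m * (TQ (lam + 1) (m + 1)).det := h
  have hA := pA_pos lam m
  rw [div_mul_eq_mul_div, eq_div_iff hA.ne', ← h']
  ring

include h2 in
lemma R_one (lam m : ℕ) : (RQ (lam + 1) m).det = pB' lam m / pA' lam m * (TQ lam (m + 1)).det := by
  have h : pA' lam m * (RQ (lam + 1) m).det = pB' lam m * (TQ lam (m + 1)).det := h2 lam m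
  have hA := pA'_pos lam m
  rw [div_mul_eq_mul_div, eq_div_iff hA.ne', ← h]
  ring

include h1 h2 h3 h5 in
lemma FD_pos (lam M : ℕ) : 0 < FD (lam + 1) M := by
  unfold FD
  rw [h1, R_one h2]
  have := detT_pos h3 h5 (lam + 1) ((M + 1) / 2)
  have := detT_pos h3 h5 lam (M / 2 + 1)
  have := pA'_pos lam (M / 2)
  have := pB'_pos lam (M / 2)
  positivity

include h1 h2 h3 h5 in
lemma ratio_even (lam k : ℕ) : FD (lam + 2) (2 * k) / FD (lam + 1) (2 * k + 1) = vv lam k / 2 := by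
  unfold FD
  rw [h1 (lam + 2) (2 * k), h1 (lam + 1) (2 * k + 1), R_two h2]
  have e1 : 2 * k % 2 = 0 := by omega
  have e2 : (2 * k + 1) / 2 = k := by omega
  have e3 : 2 * k / 2 = k := by omega
  have e4 : (2 * k + 1) % 2 = 1 := by omega
  have e5 : (2 * k + 1 + 1) / 2 = k + 1 := by omega
  rw [e1, e2, e3, e4, e5, R_one h2]
  unfold vv
  have t1 := detT_pos h3 h5 (lam + 1) (k + 1)
  have t2 := detT_pos h3 h5 lam (k + 1)
  have t3 := pA_pos lam k
  have t4 := pB_pos lam k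
  have t5 := pA'_pos lam k
  have t6 := pB'_pos lam k
  field_simp

include h1 h2 h3 h5 in
lemma ratio_odd (lam m : ℕ) : FD (lam + 2) (2 * m + 1) / FD (lam + 1) (2 * m + 2) =
    2 * vv lam (m + 1) * ((3 * m + 2 * lam + 6) / (12 * m + 4 * lam + 18)) := by
  unfold FD
  rw [h1 (lam + 2) (2 * m + 1), h1 (lam + 1) (2 * m + 2), R_two h2]
  have e1 : (2 * m + 1) % 2 = 1 := by omega
  have e2 : (2 * m + 1 + 1) / 2 = m + 1 := by omega
  have e3 : (2 * m + 1) / 2 = m := by omega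
  have e4 : (2 * m + 2) % 2 = 0 := by omega
  have e5 : (2 * m + 2 + 1) / 2 = m + 1 := by omega
  rw [e1, e2, e3, e4, e5, R_one h2]
  unfold vv
  have t1 := detT_pos h3 h5 (lam + 1) (m + 1)
  have t2 := detT_pos h3 h5 lam (m + 1 + 1)
  have t3 := pA_pos lam m
  have t4 := pB_pos lam m
  have t5 := pA'_pos lam (m + 1)
  have t6 := pB'_pos lam (m + 1)
  have s1 : pA lam (m + 1) = pA lam m * (3 * m + 2 * lam + 6) := prod_range_succ _ _
  have s2 : pB lam (m + 1) = pB lam m * (12 * m + 4 * lam + 18) := prod_range_succ _ _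
  have s3 : (0 : ℚ) < 3 * m + 2 * lam + 6 := by positivity
  have s4 : (0 : ℚ) < 12 * m + 4 * lam + 18 := by positivity
  rw [s1, s2]
  field_simp

include h3 h5 in
lemma vv_pos (lam k : ℕ) : 0 < vv lam k := by
  unfold vv
  have t1 := detT_pos h3 h5 (lam + 2) k
  have t2 := detT_pos h3 h5 lam (k + 1)
  have t3 := pA_pos lam k
  have t4 := pB_pos lam k
  have t5 := pA'_pos lam k
  have t6 := pB'_pos lam k
  positivity

include h3 h4 h5 in
lemma vv_succ (lam k : ℕ) : vv lam (k + 1) = vv lam k *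
    (((2 * k + 1) * (3 * k + 2 * lam + 5)) / (((k : ℚ) + lam + 2) * (6 * k + 2 * lam + 5))) *
    (((12 * k + 4 * lam + 18) * (3 * k + 2 * lam + 4)) /
      ((3 * k + 2 * lam + 6) * (12 * k + 4 * lam + 14))) := by
  unfold vv
  have t1 := detT_pos h3 h5 (lam + 2) k
  have t2 := detT_pos h3 h5 lam (k + 1)
  have t3 := pA_pos lam k
  have t4 := pB_pos lam k
  have t5 := pA'_pos lam k
  have t6 := pB'_pos lam k
  have s1 : pA lam (k + 1) = pA lam k * (3 * k + 2 * lam + 6) := prod_range_succ _ _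
  have s2 : pB lam (k + 1) = pB lam k * (12 * k + 4 * lam + 18) := prod_range_succ _ _
  have s3 : pA' lam (k + 1) = pA' lam k * (3 * k + 2 * lam + 4) := prod_range_succ _ _
  have s4 : pB' lam (k + 1) = pB' lam k * (12 * k + 4 * lam + 14) := prod_range_succ _ _
  have u1 : (TQ (lam + 2) (k + 1)).det = (TQ (lam + 2) k).det * tau (lam + 2) k := by
    rw [h3, h3, prod_range_succ]
  have u2 : (TQ lam (k + 1 + 1)).det = (TQ lam (k + 1)).det * tau lam (k + 1) := by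
    rw [h3 lam (k + 1 + 1), h3 lam (k + 1), prod_range_succ]
  have p1 := h5 (lam + 2) k
  have p2 := h5 lam (k + 1)
  have r := h4 lam k
  have q1 : (0 : ℚ) < ((k : ℚ) + lam + 2) * (6 * k + 2 * lam + 5) := by positivity
  have u3 : tau (lam + 2) k = tau lam (k + 1) *
      (((2 * k + 1) * (3 * k + 2 * lam + 5)) / (((k : ℚ) + lam + 2) * (6 * k + 2 * lam + 5))) := by
    rw [mul_div_assoc', eq_div_iff q1.ne', r]
  rw [s1, s2, s3, s4, u1, u2, u3]
  have q2 : (0 : ℚ) < 3 * k + 2 * lam + 6 := by positivity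
  have q3 : (0 : ℚ) < 12 * k + 4 * lam + 14 := by positivity
  field_simp

end

/-- the two ratios -/
noncomputable def rx (a k : ℕ) : ℝ :=
  ((2 * k + 1) * (3 * k + 2 * a + 5)) / (((k : ℝ) + a + 2) * (6 * k + 2 * a + 5))
noncomputable def rw' (a k : ℕ) : ℝ :=
  ((12 * k + 4 * a + 18) * (3 * k + 2 * a + 4)) / ((3 * (k : ℝ) + 2 * a + 6) * (12 * k + 4 * a + 14))

lemma rx_pos (a k : ℕ) : 0 < rx a k := by unfold rx; positivity
lemma rw'_pos (a k : ℕ) : 0 < rw' a k := by unfold rw'; positivity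

lemma aux_bound {num den K c k : ℝ} (hk : 1 ≤ k) (hnum : 0 ≤ num) (hK : num ≤ K * k)
    (hc : 1 ≤ c) (hden : c * k ^ 2 ≤ den) : |num / (3 * k * den)| ≤ K / k ^ 2 := by
  have hk0 : 0 < k := by linarith
  have hd : 0 < den := lt_of_lt_of_le (by positivity) hden
  have hK0 : 0 ≤ K := by
    by_contra h
    push Not at h
    nlinarith
  rw [abs_of_nonneg (by positivity), div_le_div_iff₀ (by positivity) (by positivity)]
  have h1 : num * k ^ 2 ≤ K * k * k ^ 2 := mul_le_mul_of_nonneg_right hK (by positivity)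
  have h2 : k ^ 2 ≤ den := by nlinarith [sq_nonneg k]
  have h3 : K * (k * k ^ 2) ≤ K * (3 * k * den) := by
    apply mul_le_mul_of_nonneg_left _ hK0
    nlinarith
  linarith

lemma rx_bound (a k : ℕ) (hk : 1 ≤ k) :
    |rx a k - 1 - (-(2 * ((a : ℝ) + 1) / 3)) / k| ≤
      (((a : ℝ) + 1) * (10 * a + 19 + 2 * (a + 2) * (2 * a + 5))) / (k : ℝ) ^ 2 := by
  have hk1 : (1 : ℝ) ≤ k := by exact_mod_cast hk
  have hk0 : (0 : ℝ) < k := by linarith
  have e : rx a k - 1 - (-(2 * ((a : ℝ) + 1) / 3)) / k =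
      (((a : ℝ) + 1) * ((10 * a + 19) * k + 2 * (a + 2) * (2 * a + 5))) /
        (3 * k * (((k : ℝ) + a + 2) * (6 * k + 2 * a + 5))) := by
    unfold rx
    field_simp
    ring
  rw [e]
  have ha : (0 : ℝ) ≤ a := Nat.cast_nonneg a
  apply aux_bound (c := 6) hk1 (by positivity) _ (by norm_num)
  · nlinarith [mul_nonneg ha hk0.le, mul_nonneg ha ha]
  · have h0 : 0 ≤ 2 * ((a : ℝ) + 2) * (2 * a + 5) * (k - 1) := by
      apply mul_nonneg (by positivity) (by linarith)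
    have h1 : (10 * (a : ℝ) + 19) * k + 2 * (a + 2) * (2 * a + 5) ≤
        (10 * a + 19 + 2 * (a + 2) * (2 * a + 5)) * k := by nlinarith
    calc ((a : ℝ) + 1) * ((10 * a + 19) * k + 2 * (a + 2) * (2 * a + 5))
        ≤ ((a : ℝ) + 1) * ((10 * a + 19 + 2 * (a + 2) * (2 * a + 5)) * k) :=
          mul_le_mul_of_nonneg_left h1 (by positivity)
      _ = _ := by ring

lemma rw'_bound (a k : ℕ) (hk : 1 ≤ k) :
    |rw' a k - 1 - (-(1 / 3 : ℝ)) / k| ≤
      ((36 * (a : ℝ) + 78) + (2 * a + 6) * (4 * a + 14)) / (k : ℝ) ^ 2 := by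
  have hk1 : (1 : ℝ) ≤ k := by exact_mod_cast hk
  have hk0 : (0 : ℝ) < k := by linarith
  have e : rw' a k - 1 - (-(1 / 3 : ℝ)) / k =
      ((36 * (a : ℝ) + 78) * k + (2 * a + 6) * (4 * a + 14)) /
        (3 * k * ((3 * (k : ℝ) + 2 * a + 6) * (12 * k + 4 * a + 14))) := by
    unfold rw'
    field_simp
    ring
  rw [e]
  have ha : (0 : ℝ) ≤ a := Nat.cast_nonneg a
  apply aux_bound (c := 36) hk1 (by positivity) _ (by norm_num)
  · nlinarith [mul_nonneg ha hk0.le, mul_nonneg ha ha]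
  · have : 0 ≤ (2 * (a : ℝ) + 6) * (4 * a + 14) * (k - 1) := by
      apply mul_nonneg (by positivity) (by linarith)
    nlinarith

/-- the two products -/
noncomputable def px (a k : ℕ) : ℝ := ∏ j ∈ range k, rx a j
noncomputable def pw (a k : ℕ) : ℝ := ∏ j ∈ range k, rw' a j

lemma px_pos (a k : ℕ) : 0 < px a k := prod_pos fun j _ => rx_pos a j
lemma pw_pos (a k : ℕ) : 0 < pw a k := prod_pos fun j _ => rw'_pos a j

lemma px_bounds (a : ℕ) : ∃ c C : ℝ, 0 < c ∧ 0 < C ∧ ∀ n : ℕ, 1 ≤ n →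
    c * (n : ℝ) ^ (-(2 * ((a : ℝ) + 1) / 3)) ≤ px a n ∧
      px a n ≤ C * (n : ℝ) ^ (-(2 * ((a : ℝ) + 1) / 3)) := by
  apply power_bounds (px a) _ _ (fun n _ => px_pos a n)
  intro n hn
  have e : px a (n + 1) / px a n = rx a n := by
    rw [show px a (n + 1) = px a n * rx a n from prod_range_succ _ _,
      mul_div_cancel_left₀ _ (px_pos a n).ne']
  rw [e]
  exact rx_bound a n hn

lemma pw_bounds (a : ℕ) : ∃ c C : ℝ, 0 < c ∧ 0 < C ∧ ∀ n : ℕ, 1 ≤ n →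
    c * (n : ℝ) ^ (-(1 / 3 : ℝ)) ≤ pw a n ∧ pw a n ≤ C * (n : ℝ) ^ (-(1 / 3 : ℝ)) := by
  apply power_bounds (pw a) _ _ (fun n _ => pw_pos a n)
  intro n hn
  have e : pw a (n + 1) / pw a n = rw' a n := by
    rw [show pw a (n + 1) = pw a n * rw' a n from prod_range_succ _ _,
      mul_div_cancel_left₀ _ (pw_pos a n).ne']
  rw [e]
  exact rw'_bound a n hn

section

variable (h1 : FactorHyp) (h2 : RTHyp) (h3 : DetHyp) (h4 : TauRatioHyp) (h5 : TauPosHyp)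

include h3 h4 h5 in
lemma vv_eq (a k : ℕ) : ((vv a k : ℚ) : ℝ) = ((vv a 0 : ℚ) : ℝ) * px a k * pw a k := by
  induction k with
  | zero => simp [px, pw]
  | succ k ih =>
    rw [vv_succ h3 h4 h5 a k]
    push_cast
    rw [ih]
    unfold px pw
    rw [prod_range_succ, prod_range_succ]
    unfold rx rw'
    ring

include h3 h4 h5 in
lemma vv_bounds (a : ℕ) : ∃ c C : ℝ, 0 < c ∧ 0 < C ∧ ∀ n : ℕ, 1 ≤ n →
    c * (n : ℝ) ^ (-(2 * (a : ℝ) + 3) / 3) ≤ ((vv a n : ℚ) : ℝ) ∧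
      ((vv a n : ℚ) : ℝ) ≤ C * (n : ℝ) ^ (-(2 * (a : ℝ) + 3) / 3) := by
  obtain ⟨c1, C1, hc1, hC1, hx⟩ := px_bounds a
  obtain ⟨c2, C2, hc2, hC2, hw⟩ := pw_bounds a
  have hv0 : (0 : ℝ) < ((vv a 0 : ℚ) : ℝ) := by exact_mod_cast vv_pos h3 h5 a 0
  refine ⟨((vv a 0 : ℚ) : ℝ) * c1 * c2, ((vv a 0 : ℚ) : ℝ) * C1 * C2, by positivity, by positivity, ?_⟩
  intro n hn
  have hn0 : (0 : ℝ) < n := by exact_mod_cast hn
  have e : (n : ℝ) ^ (-(2 * (a : ℝ) + 3) / 3) =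
      (n : ℝ) ^ (-(2 * ((a : ℝ) + 1) / 3)) * (n : ℝ) ^ (-(1 / 3 : ℝ)) := by
    rw [← Real.rpow_add hn0]
    congr 1
    ring
  rw [vv_eq h3 h4 h5 a n, e]
  obtain ⟨x1, x2⟩ := hx n hn
  obtain ⟨w1, w2⟩ := hw n hn
  have p1 : 0 < (n : ℝ) ^ (-(2 * ((a : ℝ) + 1) / 3)) := Real.rpow_pos_of_pos hn0 _
  have p2 : 0 < (n : ℝ) ^ (-(1 / 3 : ℝ)) := Real.rpow_pos_of_pos hn0 _
  constructor
  · calc ((vv a 0 : ℚ) : ℝ) * c1 * c2 *
          ((n : ℝ) ^ (-(2 * ((a : ℝ) + 1) / 3)) * (n : ℝ) ^ (-(1 / 3 : ℝ)))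
        = ((vv a 0 : ℚ) : ℝ) * ((c1 * (n : ℝ) ^ (-(2 * ((a : ℝ) + 1) / 3))) *
            (c2 * (n : ℝ) ^ (-(1 / 3 : ℝ)))) := by ring
      _ ≤ ((vv a 0 : ℚ) : ℝ) * (px a n * pw a n) := by
          apply mul_le_mul_of_nonneg_left _ hv0.le
          exact mul_le_mul x1 w1 (by positivity) (px_pos a n).le
      _ = _ := by ring
  · calc ((vv a 0 : ℚ) : ℝ) * px a n * pw a n = ((vv a 0 : ℚ) : ℝ) * (px a n * pw a n) := by ring
      _ ≤ ((vv a 0 : ℚ) : ℝ) * ((C1 * (n : ℝ) ^ (-(2 * ((a : ℝ) + 1) / 3))) *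
            (C2 * (n : ℝ) ^ (-(1 / 3 : ℝ)))) := by
          apply mul_le_mul_of_nonneg_left _ hv0.le
          exact mul_le_mul x2 w2 (pw_pos a n).le (by positivity)
      _ = _ := by ring

include h1 h2 h3 h4 h5 in
/-- F8 from F1, F2, F5 -/
theorem step_of (l : ℕ) (hl : 2 ≤ l) :
    ∃ c C : ℝ, 0 < c ∧ 0 < C ∧ ∀ n : ℕ, l ≤ n →
      0 < (1 + PQ (2 * l) (2 * n - l)).det ∧
      c * (n : ℝ) ^ (-(2 * (l : ℝ) - 1) / 3) ≤
        (((1 + PQ (2 * l) (2 * n - l)).det / (1 + PQ (2 * (l - 1)) (2 * n - l + 1)).det : ℚ) : ℝ) ∧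
      (((1 + PQ (2 * l) (2 * n - l)).det / (1 + PQ (2 * (l - 1)) (2 * n - l + 1)).det : ℚ) : ℝ) ≤
        C * (n : ℝ) ^ (-(2 * (l : ℝ) - 1) / 3) := by
  obtain ⟨a, rfl⟩ : ∃ a, l = a + 2 := ⟨l - 2, by omega⟩
  obtain ⟨c, C, hc, hC, hv⟩ := vv_bounds h3 h4 h5 a
  have eg : (-(2 * ((a + 2 : ℕ) : ℝ) - 1) / 3) = -(2 * (a : ℝ) + 3) / 3 := by
    push_cast; ring
  rw [eg]
  set g : ℝ := -(2 * (a : ℝ) + 3) / 3 with hg
  have hg0 : g ≤ 0 := by
    rw [hg]
    have : (0 : ℝ) ≤ a := Nat.cast_nonneg a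
    apply div_nonpos_of_nonpos_of_nonneg <;> linarith
  refine ⟨c / 5, 2 * (C * (1 / 2) ^ g), by positivity, by positivity, ?_⟩
  intro n hn
  have hpos : 0 < FD (a + 2) (2 * n - (a + 2)) := by
    have := FD_pos h1 h2 h3 h5 (a + 1) (2 * n - (a + 2))
    simpa using this
  have hfold : (1 + PQ (2 * (a + 2)) (2 * n - (a + 2))).det /
      (1 + PQ (2 * (a + 2 - 1)) (2 * n - (a + 2) + 1)).det =
      FD (a + 2) (2 * n - (a + 2)) / FD (a + 1) (2 * n - (a + 2) + 1) := rfl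
  refine ⟨hpos, ?_⟩
  rw [hfold]
  -- the index k
  obtain ⟨k, t, hk1, hkn, hkn2, ht1, ht2, hkey⟩ : ∃ (k : ℕ) (t : ℚ), 1 ≤ k ∧ k ≤ n ∧ n ≤ 2 * k ∧
      1 / 5 ≤ t ∧ t ≤ 2 ∧
      FD (a + 2) (2 * n - (a + 2)) / FD (a + 1) (2 * n - (a + 2) + 1) = vv a k * t := by
    rcases Nat.even_or_odd' a with ⟨s, hs | hs⟩
    · refine ⟨n - (s + 1), 1 / 2, by omega, by omega, by omega, by norm_num, by norm_num, ?_⟩
      have e1 : 2 * n - (a + 2) = 2 * (n - (s + 1)) := by omega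
      rw [e1, ratio_even h1 h2 h3 h5 a (n - (s + 1))]
      ring
    · obtain ⟨m, hm⟩ : ∃ m, n = m + s + 2 := ⟨n - (s + 2), by omega⟩
      refine ⟨m + 1, 2 * ((3 * m + 2 * a + 6) / (12 * m + 4 * a + 18)), by omega, by omega,
        by omega, ?_, ?_, ?_⟩
      · have : (0 : ℚ) < 12 * m + 4 * a + 18 := by positivity
        rw [← mul_div_assoc, div_le_div_iff₀ (by norm_num) this]
        have h6 : (0 : ℚ) ≤ m := Nat.cast_nonneg m
        have h7 : (0 : ℚ) ≤ a := Nat.cast_nonneg a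
        linarith
      · have : (0 : ℚ) < 12 * m + 4 * a + 18 := by positivity
        rw [← mul_div_assoc, div_le_iff₀ this]
        have h6 : (0 : ℚ) ≤ m := Nat.cast_nonneg m
        have h7 : (0 : ℚ) ≤ a := Nat.cast_nonneg a
        linarith
      · have e1 : 2 * n - (a + 2) = 2 * m + 1 := by omega
        have e2 : 2 * n - (a + 2) + 1 = 2 * m + 2 := by omega
        rw [e1]
        rw [ratio_odd h1 h2 h3 h5 a m]
        ring
  rw [hkey]
  push_cast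
  have ht1' : (1 / 5 : ℝ) ≤ (t : ℝ) := by
    have : ((1 / 5 : ℚ) : ℝ) ≤ (t : ℝ) := by exact_mod_cast ht1
    simpa using this
  have ht2' : (t : ℝ) ≤ 2 := by exact_mod_cast ht2
  obtain ⟨b1, b2⟩ := hv k hk1
  have hk0 : (0 : ℝ) < k := by exact_mod_cast hk1
  have hn0 : (0 : ℝ) < n := by
    have : 0 < n := by omega
    exact_mod_cast this
  have hkn' : (k : ℝ) ≤ n := by exact_mod_cast hkn
  have hkn2' : (n : ℝ) ≤ 2 * k := by exact_mod_cast hkn2
  have g1 : (n : ℝ) ^ g ≤ (k : ℝ) ^ g := Real.rpow_le_rpow_of_nonpos hk0 hkn' hg0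
  have g2 : (k : ℝ) ^ g ≤ (1 / 2) ^ g * (n : ℝ) ^ g := by
    rw [← Real.mul_rpow (by norm_num) hn0.le]
    apply Real.rpow_le_rpow_of_nonpos (by positivity) _ hg0
    linarith
  have hvk : (0 : ℝ) < ((vv a k : ℚ) : ℝ) := by exact_mod_cast vv_pos h3 h5 a k
  constructor
  · calc c / 5 * (n : ℝ) ^ g ≤ c * (k : ℝ) ^ g * (1 / 5) := by
          have := mul_le_mul_of_nonneg_left g1 hc.le
          linarith
      _ ≤ ((vv a k : ℚ) : ℝ) * t := mul_le_mul b1 ht1' (by norm_num) hvk.le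
  · calc ((vv a k : ℚ) : ℝ) * t ≤ (C * (k : ℝ) ^ g) * 2 := by
          apply mul_le_mul b2 ht2' (by linarith) (by positivity)
      _ ≤ (C * ((1 / 2) ^ g * (n : ℝ) ^ g)) * 2 := by
          have := mul_le_mul_of_nonneg_left g2 hC.le
          linarith
      _ = _ := by ring

end

end Pool.Agent.H13.Four
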